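import Pool.Agent.Q215.SV.Lower

set_option autoImplicit false

/-! Integration of the pointwise bound and the limits. -/

open MeasureTheory Set Matrix ProbabilityTheory
open scoped ENNReal

namespace Pool.Agent.Q215.SV

open Pool.Agent.H992R2

variable {n : ℕ}

theorem measurable_rr : Measurable (rr : (Fin n → ℝ) → ℝ) := by
  unfold rr
  have : Continuous fun ξ : Fin n → ℝ => ξ ⬝ᵥ ξ := by unfold dotProduct; fun_prop
  exact (Real.continuous_sqrt.comp this).measurable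

theorem measurable_xx : Measurable (xx : (Fin n → ℝ) → (Fin n → ℝ)) := by
  unfold xx
  exact measurable_rr.inv.smul measurable_id

/-- the first integrand -/
noncomputable def Ph (Abar : Matrix (Fin n) (Fin n) ℝ) (σ ε δ : ℝ) (p : Om n × (Fin n → ℝ)) : ℝ≥0∞ :=
  ENNReal.ofReal (rr p.2) *
    ENNReal.ofReal (max (ff Abar σ ε p.1 - ff Abar σ ε (rot (xx p.2) δ p.1)) 0)

theorem measurable_Ph (Abar : Matrix (Fin n) (Fin n) ℝ) (σ ε δ : ℝ) :
    Measurable (Ph Abar σ ε δ) := by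
  unfold Ph
  have h1 : Measurable fun p : Om n × (Fin n → ℝ) => rr p.2 := measurable_rr.comp measurable_snd
  have h2 : Measurable fun p : Om n × (Fin n → ℝ) => ff Abar σ ε p.1 :=
    (continuous_ff Abar σ ε).measurable.comp measurable_fst
  have h3 : Measurable fun p : Om n × (Fin n → ℝ) => ff Abar σ ε (rot (xx p.2) δ p.1) := by
    have h4 : Measurable fun p : Om n × (Fin n → ℝ) =>
        ((xx p.2, δ, p.1) : (Fin n → ℝ) × ℝ × Om n) :=
      (measurable_xx.comp measurable_snd).prodMk (measurable_const.prodMk measurable_fst)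
    exact (continuous_ff Abar σ ε).measurable.comp (continuous_rot.measurable.comp h4)
  exact h1.ennreal_ofReal.mul ((h2.sub h3).max measurable_const).ennreal_ofReal

theorem measurable_Er (σ η : ℝ) : Measurable (Er σ η : Om n → ℝ) := by
  unfold Er
  fun_prop

theorem swap_Ph (Abar : Matrix (Fin n) (Fin n) ℝ) (σ ε δ : ℝ) :
    ∫⁻ w, ∫⁻ ξ, Ph Abar σ ε δ (w, ξ) ∂(gam (Fin n)) ∂(mu n) =
      ∫⁻ ξ, ∫⁻ w, Ph Abar σ ε δ (w, ξ) ∂(mu n) ∂(gam (Fin n)) := by
  have hu : Function.uncurry (fun (w : Om n) (ξ : Fin n → ℝ) => Ph Abar σ ε δ (w, ξ)) =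
      Ph Abar σ ε δ := by
    funext p
    rcases p with ⟨w, ξ⟩
    rfl
  refine lintegral_lintegral_swap (f := fun (w : Om n) (ξ : Fin n → ℝ) => Ph Abar σ ε δ (w, ξ)) ?_
  rw [hu]
  exact (measurable_Ph Abar σ ε δ).aemeasurable

theorem T1_le (hn : 0 < n) (Abar : Matrix (Fin n) (Fin n) ℝ) (σ : ℝ) {ε : ℝ} (hε : 0 < ε)
    {N : ℕ} (hN : 0 < N) :
    ∫⁻ w, ∫⁻ ξ, Ph Abar σ ε (2 * Real.pi / N) (w, ξ) ∂(gam (Fin n)) ∂(mu n) ≤
      ENNReal.ofReal (Real.sqrt n) * ENNReal.ofReal (2 * ε / N) := by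
  rw [swap_Ph]
  have h1 : ∀ ξ : Fin n → ℝ, ∫⁻ w, Ph Abar σ ε (2 * Real.pi / N) (w, ξ) ∂(mu n) ≤
      ENNReal.ofReal (rr ξ) * ENNReal.ofReal (2 * ε / N) := by
    intro ξ
    by_cases hr : rr ξ = 0
    · unfold Ph; simp [hr]
    · have hm : Measurable fun w : Om n => ENNReal.ofReal
          (max (ff Abar σ ε w - ff Abar σ ε (rot (xx ξ) (2 * Real.pi / N) w)) 0) := by
        have h2 : Measurable fun w : Om n => ff Abar σ ε (rot (xx ξ) (2 * Real.pi / N) w) := by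
          have h4 : Measurable fun w : Om n =>
              ((xx ξ, 2 * Real.pi / N, w) : (Fin n → ℝ) × ℝ × Om n) :=
            measurable_const.prodMk (measurable_const.prodMk measurable_id)
          exact (continuous_ff Abar σ ε).measurable.comp (continuous_rot.measurable.comp h4)
        exact (((continuous_ff Abar σ ε).measurable.sub h2).max measurable_const).ennreal_ofReal
      have e1 : ∫⁻ w, Ph Abar σ ε (2 * Real.pi / N) (w, ξ) ∂(mu n) =
          ENNReal.ofReal (rr ξ) * ∫⁻ w, ENNReal.ofReal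
            (max (ff Abar σ ε w - ff Abar σ ε (rot (xx ξ) (2 * Real.pi / N) w)) 0) ∂(mu n) := by
        rw [← lintegral_const_mul _ hm]
        rfl
      rw [e1]
      gcongr
      exact step_bound hn Abar σ hε (xx_unit hr) hN
  refine (lintegral_mono h1).trans ?_
  rw [lintegral_mul_const _ measurable_rr.ennreal_ofReal]
  gcongr
  exact lint_norm hn

theorem T2_le (hn : 0 < n) {σ η δ : ℝ} :
    ∫⁻ w, ∫⁻ ξ, ENNReal.ofReal (δ ^ 2 * Er σ η w) * ENNReal.ofReal (rr ξ) ∂(gam (Fin n)) ∂(mu n) ≤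
      ENNReal.ofReal (δ ^ 2) * ((∫⁻ w, ENNReal.ofReal (Er σ η w) ∂(mu n)) *
        ENNReal.ofReal (Real.sqrt n)) := by
  have h1 : ∀ w : Om n, ∫⁻ ξ, ENNReal.ofReal (δ ^ 2 * Er σ η w) * ENNReal.ofReal (rr ξ) ∂(gam (Fin n)) ≤
      ENNReal.ofReal (δ ^ 2) * (ENNReal.ofReal (Er σ η w) * ENNReal.ofReal (Real.sqrt n)) := by
    intro w
    rw [lintegral_const_mul _ measurable_rr.ennreal_ofReal, ENNReal.ofReal_mul (sq_nonneg δ),
      mul_assoc]
    gcongr
    exact lint_norm hn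
  refine (lintegral_mono h1).trans ?_
  rw [lintegral_const_mul _ ((measurable_Er σ η).ennreal_ofReal.mul_const _),
    lintegral_mul_const _ (measurable_Er σ η).ennreal_ofReal]

/-- the closed event -/
def SS (Abar : Matrix (Fin n) (Fin n) ℝ) (σ ε η : ℝ) : Set (Fin n → Fin n → ℝ) :=
  {G | η ≤ mv (Abar + σ • Matrix.of G) ∧ mv (Abar + σ • Matrix.of G) ≤ ε}

theorem cont_G (Abar : Matrix (Fin n) (Fin n) ℝ) (σ : ℝ) :
    Continuous fun G : Fin n → Fin n → ℝ => mv (Abar + σ • Matrix.of G) := by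
  refine continuous_mv.comp ?_
  exact continuous_const.add (Continuous.const_smul continuous_id σ)

theorem measurableSet_SS (Abar : Matrix (Fin n) (Fin n) ℝ) (σ ε η : ℝ) :
    MeasurableSet (SS Abar σ ε η) :=
  ((isClosed_le continuous_const (cont_G Abar σ)).inter
    (isClosed_le (cont_G Abar σ) continuous_const)).measurableSet

theorem main_step (hn : 0 < n) (Abar : Matrix (Fin n) (Fin n) ℝ) {σ ε η : ℝ} (hσ : 0 < σ)
    (hη : 0 < η) (hε : 0 < ε) {N : ℕ} (hN : 2 ≤ N) :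
    muM n n (SS Abar σ ε η) * ENNReal.ofReal (σ * Real.sin (2 * Real.pi / N) / Real.pi) ≤
      ENNReal.ofReal (Real.sqrt n) * ENNReal.ofReal (2 * ε / N) +
      ENNReal.ofReal ((2 * Real.pi / N) ^ 2) * ((∫⁻ w, ENNReal.ofReal (Er σ η w) ∂(mu n)) *
        ENNReal.ofReal (Real.sqrt n)) := by
  set δ : ℝ := 2 * Real.pi / N with hδ
  have hN2 : (2 : ℝ) ≤ N := by exact_mod_cast hN
  have hsin : 0 ≤ Real.sin δ := by
    apply Real.sin_nonneg_of_nonneg_of_le_pi
    · positivity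
    · rw [hδ, div_le_iff₀ (by linarith)]; nlinarith [Real.pi_pos]
  have hmP := measurable_Ph Abar σ ε δ
  have hkey : ∀ G : Fin n → Fin n → ℝ,
      (SS Abar σ ε η).indicator (fun _ => ENNReal.ofReal (σ * Real.sin δ / Real.pi)) G ≤
        ∫⁻ g, ∫⁻ ξ, (Ph Abar σ ε δ ((G, g), ξ) +
          ENNReal.ofReal (δ ^ 2 * Er σ η (G, g)) * ENNReal.ofReal (rr ξ)) ∂(gam (Fin n))
          ∂(gam (Fin n)) := by
    intro G
    by_cases hG : G ∈ SS Abar σ ε η
    · rw [indicator_of_mem hG]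
      obtain ⟨v, hv, hmin⟩ := exists_min hn (Abar + σ • Matrix.of G)
      have hs0 : 0 < mv (Abar + σ • Matrix.of G) := lt_of_lt_of_le hη hG.1
      have huu : ((mv (Abar + σ • Matrix.of G))⁻¹ • ((Abar + σ • Matrix.of G) *ᵥ v)) ⬝ᵥ
          ((mv (Abar + σ • Matrix.of G))⁻¹ • ((Abar + σ • Matrix.of G) *ᵥ v)) = 1 := by
        have hww : ((Abar + σ • Matrix.of G) *ᵥ v) ⬝ᵥ ((Abar + σ • Matrix.of G) *ᵥ v) =
            mv (Abar + σ • Matrix.of G) ^ 2 := by
          rw [← hmin, Real.sq_sqrt (dotProduct_self_nonneg' _)]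
        rw [smul_dotProduct, dotProduct_smul, smul_eq_mul, smul_eq_mul, hww]; field_simp
      have e1 : ENNReal.ofReal (σ * Real.sin δ / Real.pi) =
          ∫⁻ g, ∫⁻ ξ, ENNReal.ofReal (σ * Real.sin δ * max (-((g ⬝ᵥ v) * (ξ ⬝ᵥ
            ((mv (Abar + σ • Matrix.of G))⁻¹ • ((Abar + σ • Matrix.of G) *ᵥ v))))) 0)
            ∂(gam (Fin n)) ∂(gam (Fin n)) := by
        have h0 : 0 ≤ σ * Real.sin δ := mul_nonneg hσ.le hsin
        simp_rw [ENNReal.ofReal_mul h0]
        have e2 : ∀ g : Fin n → ℝ, ∫⁻ ξ, ENNReal.ofReal (σ * Real.sin δ) *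
            ENNReal.ofReal (max (-((g ⬝ᵥ v) * (ξ ⬝ᵥ
            ((mv (Abar + σ • Matrix.of G))⁻¹ • ((Abar + σ • Matrix.of G) *ᵥ v))))) 0)
            ∂(gam (Fin n)) = ENNReal.ofReal (σ * Real.sin δ) *
            ∫⁻ ξ, ENNReal.ofReal (max (-((g ⬝ᵥ v) * (ξ ⬝ᵥ
            ((mv (Abar + σ • Matrix.of G))⁻¹ • ((Abar + σ • Matrix.of G) *ᵥ v))))) 0)
            ∂(gam (Fin n)) := fun g => lintegral_const_mul' _ _ ENNReal.ofReal_ne_top
        simp_rw [e2]
        rw [lintegral_const_mul' _ _ ENNReal.ofReal_ne_top, bilin huu hv,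
          ← ENNReal.ofReal_mul h0]
        congr 1
        ring
      rw [e1]
      refine lintegral_mono fun g => lintegral_mono fun ξ => ?_
      have hEr := Er_nonneg hσ hη ((G, g) : Om n)
      have hp := pointwise Abar hσ hη hsin G g ξ v hv hmin hG.1 hG.2
      refine (ENNReal.ofReal_le_ofReal hp).trans ?_
      rw [ENNReal.ofReal_add (mul_nonneg (rr_nonneg ξ) (le_max_right _ _))
        (mul_nonneg (mul_nonneg (sq_nonneg δ) hEr) (rr_nonneg ξ)),
        ENNReal.ofReal_mul (rr_nonneg ξ), ENNReal.ofReal_mul (mul_nonneg (sq_nonneg δ) hEr)]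
      exact le_refl _
    · rw [indicator_of_notMem hG]; exact zero_le
  have hm2 : Measurable fun p : Om n × (Fin n → ℝ) =>
      ENNReal.ofReal (δ ^ 2 * Er σ η p.1) * ENNReal.ofReal (rr p.2) :=
    (((measurable_Er σ η).comp measurable_fst).const_mul _).ennreal_ofReal.mul
      (measurable_rr.comp measurable_snd).ennreal_ofReal
  have hm3 : Measurable fun w : Om n => ∫⁻ ξ, (Ph Abar σ ε δ (w, ξ) +
      ENNReal.ofReal (δ ^ 2 * Er σ η w) * ENNReal.ofReal (rr ξ)) ∂(gam (Fin n)) :=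
    (hmP.add hm2).lintegral_prod_right'
  calc muM n n (SS Abar σ ε η) * ENNReal.ofReal (σ * Real.sin δ / Real.pi)
      = ∫⁻ G, (SS Abar σ ε η).indicator (fun _ => ENNReal.ofReal (σ * Real.sin δ / Real.pi)) G
          ∂(muM n n) := by
        rw [lintegral_indicator_const (measurableSet_SS Abar σ ε η), mul_comm]
    _ ≤ ∫⁻ G, ∫⁻ g, ∫⁻ ξ, (Ph Abar σ ε δ ((G, g), ξ) +
          ENNReal.ofReal (δ ^ 2 * Er σ η (G, g)) * ENNReal.ofReal (rr ξ)) ∂(gam (Fin n))
          ∂(gam (Fin n)) ∂(muM n n) := lintegral_mono hkey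
    _ = ∫⁻ w, ∫⁻ ξ, (Ph Abar σ ε δ (w, ξ) +
          ENNReal.ofReal (δ ^ 2 * Er σ η w) * ENNReal.ofReal (rr ξ)) ∂(gam (Fin n)) ∂(mu n) := by
        rw [lintegral_prod _ hm3.aemeasurable]
    _ = ∫⁻ w, (∫⁻ ξ, Ph Abar σ ε δ (w, ξ) ∂(gam (Fin n)) +
          ∫⁻ ξ, ENNReal.ofReal (δ ^ 2 * Er σ η w) * ENNReal.ofReal (rr ξ) ∂(gam (Fin n)))
          ∂(mu n) := by
        refine lintegral_congr fun w => ?_
        exact lintegral_add_left (hmP.comp measurable_prodMk_left) _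
    _ = ∫⁻ w, ∫⁻ ξ, Ph Abar σ ε δ (w, ξ) ∂(gam (Fin n)) ∂(mu n) +
          ∫⁻ w, ∫⁻ ξ, ENNReal.ofReal (δ ^ 2 * Er σ η w) * ENNReal.ofReal (rr ξ) ∂(gam (Fin n))
          ∂(mu n) := by
        rw [lintegral_add_left hmP.lintegral_prod_right']
    _ ≤ _ := add_le_add (T1_le hn Abar σ hε (by omega)) (T2_le hn)

theorem limit_N (hn : 0 < n) (Abar : Matrix (Fin n) (Fin n) ℝ) {σ ε η : ℝ} (hσ : 0 < σ)
    (hη : 0 < η) (hε : 0 < ε) :
    muM n n (SS Abar σ ε η) ≤ ENNReal.ofReal (ε * Real.sqrt n / σ) := by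
  set k := (∫⁻ w, ENNReal.ofReal (Er σ η w) ∂(mu n)).toReal with hk
  have hkr : ∫⁻ w, ENNReal.ofReal (Er σ η w) ∂(mu n) = ENNReal.ofReal k :=
    (ENNReal.ofReal_toReal (lint_Er hσ hη)).symm
  set p := (muM n n (SS Abar σ ε η)).toReal with hp
  have hpr : muM n n (SS Abar σ ε η) = ENNReal.ofReal p :=
    (ENNReal.ofReal_toReal (measure_ne_top _ _)).symm
  have hk0 : 0 ≤ k := ENNReal.toReal_nonneg
  have hp0 : 0 ≤ p := ENNReal.toReal_nonneg
  have hs0 : 0 ≤ Real.sqrt n := Real.sqrt_nonneg _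
  have h1 : ∀ N : ℕ, 7 ≤ N → p * σ ≤ Real.sqrt n * ε +
      (2 * Real.pi / N) * (Real.pi * k * Real.sqrt n + p * σ / 4) := by
    intro N hN
    have hN7 : (7 : ℝ) ≤ N := by exact_mod_cast hN
    have h := main_step hn Abar hσ hη hε (N := N) (by omega)
    set x : ℝ := 2 * Real.pi / N with hx
    have hpi := Real.pi_pos
    have hx0 : 0 < x := by positivity
    have hx1 : x ≤ 1 := by
      rw [hx, div_le_one (by linarith)]
      have := Real.pi_lt_d2
      linarith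
    have hs := Real.sin_gt_sub_cube hx0
    have hsn : 0 ≤ Real.sin x := by nlinarith [pow_pos hx0 2, pow_pos hx0 3]
    rw [hpr, hkr, ← ENNReal.ofReal_mul hp0, ← ENNReal.ofReal_mul hs0, ← ENNReal.ofReal_mul hk0,
      ← ENNReal.ofReal_mul (sq_nonneg x), ← ENNReal.ofReal_add (by positivity) (by positivity),
      ENNReal.ofReal_le_ofReal_iff (by positivity)] at h
    have e : 2 * ε / N = ε * x / Real.pi := by rw [hx]; field_simp
    rw [e] at h
    have h2 : p * (σ * (x - x ^ 3 / 6) / Real.pi) ≤ p * (σ * Real.sin x / Real.pi) := by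
      gcongr
    have h3 := h2.trans h
    have h4 : p * (σ * (x - x ^ 3 / 6) / Real.pi) = (x / Real.pi) * (p * σ * (1 - x ^ 2 / 6)) := by
      ring
    have h5 : Real.sqrt n * (ε * x / Real.pi) + x ^ 2 * (k * Real.sqrt n) =
        (x / Real.pi) * (Real.sqrt n * ε + x * (Real.pi * k * Real.sqrt n)) := by
      field_simp
    rw [h4, h5] at h3
    have h6 := le_of_mul_le_mul_left h3 (by positivity)
    have h7 : x ^ 2 ≤ x := by nlinarith
    have h8 : 0 ≤ p * σ := by positivity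
    nlinarith
  rw [hpr]
  refine ENNReal.ofReal_le_ofReal ?_
  rw [le_div_iff₀ hσ]
  have ht : Filter.Tendsto (fun N : ℕ => Real.sqrt n * ε +
      (2 * Real.pi / N) * (Real.pi * k * Real.sqrt n + p * σ / 4)) Filter.atTop
      (nhds (Real.sqrt n * ε + 0 * (Real.pi * k * Real.sqrt n + p * σ / 4))) := by
    refine Filter.Tendsto.const_add _ (Filter.Tendsto.mul_const _ ?_)
    exact tendsto_const_div_atTop_nhds_zero_nat _
  have h9 := ge_of_tendsto ht (Filter.eventually_atTop.2 ⟨7, h1⟩)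
  linarith

theorem limit_eta (hn : 0 < n) (Abar : Matrix (Fin n) (Fin n) ℝ) {σ ε : ℝ} (hσ : 0 < σ)
    (hε : 0 < ε) :
    muM n n {G | 0 < mv (Abar + σ • Matrix.of G) ∧ mv (Abar + σ • Matrix.of G) ≤ ε} ≤
      ENNReal.ofReal (ε * Real.sqrt n / σ) := by
  have hU : {G : Fin n → Fin n → ℝ | 0 < mv (Abar + σ • Matrix.of G) ∧
      mv (Abar + σ • Matrix.of G) ≤ ε} = ⋃ m : ℕ, SS Abar σ ε (1 / ((m : ℝ) + 1)) := by
    ext G
    simp only [mem_setOf_eq, mem_iUnion, SS]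
    constructor
    · rintro ⟨h1, h2⟩
      obtain ⟨m, hm⟩ := exists_nat_one_div_lt h1
      exact ⟨m, hm.le, h2⟩
    · rintro ⟨m, h1, h2⟩
      exact ⟨lt_of_lt_of_le (by positivity) h1, h2⟩
  have hmono : Monotone fun m : ℕ => SS Abar σ ε (1 / ((m : ℝ) + 1)) := by
    intro a b hab G hG
    refine ⟨le_trans ?_ hG.1, hG.2⟩
    have : (a : ℝ) ≤ b := by exact_mod_cast hab
    exact one_div_le_one_div_of_le (by positivity) (by linarith)
  rw [hU, hmono.measure_iUnion]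
  exact iSup_le fun m => limit_N hn Abar hσ (by positivity) hε

/-- **The conjectured bound.** -/
theorem final (n : ℕ) (Abar : Matrix (Fin n) (Fin n) ℝ) (σ x : ℝ) (hσ : 0 < σ) (hx : 0 < x) :
    muM n n {G : Fin n → Fin n → ℝ |
          ∃ v : Fin n → ℝ, (∑ i, v i ^ 2 ≤ 1) ∧
            x ^ 2 ≤ ∑ i, (Matrix.mulVec (Abar + σ • Matrix.of G)⁻¹ v) i ^ 2}
        ≤ ENNReal.ofReal (Real.sqrt n / (x * σ)) := by
  have hsq : ∀ w : Fin n → ℝ, ∑ i, w i ^ 2 = w ⬝ᵥ w := by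
    intro w; unfold dotProduct; exact Finset.sum_congr rfl fun i _ => by ring
  rcases Nat.eq_zero_or_pos n with hn | hn
  · subst hn
    have : {G : Fin 0 → Fin 0 → ℝ |
          ∃ v : Fin 0 → ℝ, (∑ i, v i ^ 2 ≤ 1) ∧
            x ^ 2 ≤ ∑ i, (Matrix.mulVec (Abar + σ • Matrix.of G)⁻¹ v) i ^ 2} = ∅ := by
      ext G
      simp only [mem_setOf_eq, mem_empty_iff_false, iff_false]
      rintro ⟨v, -, h⟩
      simp only [Finset.univ_eq_empty, Finset.sum_empty] at h
      have := pow_pos hx 2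
      linarith
    rw [this, measure_empty]
    exact zero_le
  · have hsub : {G : Fin n → Fin n → ℝ |
          ∃ v : Fin n → ℝ, (∑ i, v i ^ 2 ≤ 1) ∧
            x ^ 2 ≤ ∑ i, (Matrix.mulVec (Abar + σ • Matrix.of G)⁻¹ v) i ^ 2} ⊆
        {G | 0 < mv (Abar + σ • Matrix.of G) ∧ mv (Abar + σ • Matrix.of G) ≤ 1 / x} := by
      rintro G ⟨v, hv, hxv⟩
      set A := Abar + σ • Matrix.of G with hA
      rw [hsq] at hv hxv
      by_cases hdet : IsUnit A.det
      · have hAw : A *ᵥ (A⁻¹ *ᵥ v) = v := by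
          rw [mulVec_mulVec, Matrix.mul_nonsing_inv _ hdet, one_mulVec]
        have hq := quad_ge A (A⁻¹ *ᵥ v)
        rw [hAw] at hq
        have h0 := mv_nonneg A
        have hle : mv A ≤ 1 / x := by
          rw [le_div_iff₀ hx]
          have h1 : (mv A * x) ^ 2 ≤ 1 := by
            have h2 : mv A ^ 2 * x ^ 2 ≤ mv A ^ 2 * ((A⁻¹ *ᵥ v) ⬝ᵥ (A⁻¹ *ᵥ v)) :=
              mul_le_mul_of_nonneg_left hxv (sq_nonneg _)
            rw [mul_pow]
            linarith
          have h3 : 0 ≤ mv A * x := mul_nonneg h0 hx.le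
          nlinarith
        refine ⟨lt_of_le_of_ne h0 ?_, hle⟩
        intro hz
        obtain ⟨v0, hv0, hm0⟩ := exists_min hn A
        rw [← hz, Real.sqrt_eq_zero (dotProduct_self_nonneg' _), dotProduct_self_eq_zero] at hm0
        have h4 : A⁻¹ *ᵥ (A *ᵥ v0) = v0 := by
          rw [mulVec_mulVec, Matrix.nonsing_inv_mul _ hdet, one_mulVec]
        rw [hm0, mulVec_zero] at h4
        rw [← h4] at hv0
        simp at hv0
      · exfalso
        rw [Matrix.nonsing_inv_apply_not_isUnit _ hdet, zero_mulVec] at hxv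
        have := pow_pos hx 2
        simp at hxv
        linarith
    refine (measure_mono hsub).trans ((limit_eta hn Abar hσ (by positivity)).trans ?_)
    refine ENNReal.ofReal_le_ofReal (le_of_eq ?_)
    field_simp

end Pool.Agent.Q215.SV
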