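import Pool.Agent.Q215.SV.Rot

set_option autoImplicit false

/-! Gaussian integrals. -/

open MeasureTheory Set Matrix ProbabilityTheory
open scoped RealInnerProductSpace ENNReal

namespace Pool.Agent.Q215.SV

open Pool.Agent.H992R2

variable {n : ℕ}

theorem law_dot {v : Fin n → ℝ} (hv : v ⬝ᵥ v = 1) :
    (gam (Fin n)).map (fun g => g ⬝ᵥ v) = gaussianReal 0 1 := by
  have hm1 : Measurable (WithLp.toLp 2 : (Fin n → ℝ) → EuclideanSpace ℝ (Fin n)) :=
    (PiLp.volume_preserving_toLp (Fin n)).measurable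
  set V : EuclideanSpace ℝ (Fin n) := WithLp.toLp 2 v with hV
  have hVn : ‖V‖ = 1 := by
    rw [EuclideanSpace.norm_eq, Real.sqrt_eq_one, ← hv]
    unfold dotProduct
    refine Finset.sum_congr rfl fun i _ => ?_
    rw [Real.norm_eq_abs, sq_abs, sq]
  have h := IsGaussian.map_eq_gaussianReal (μ := stdGaussian (EuclideanSpace ℝ (Fin n))) (innerSL ℝ V)
  rw [integral_strongDual_stdGaussian, variance_dual_stdGaussian, innerSL_apply_norm, hVn] at h
  have h2 : (stdGaussian (EuclideanSpace ℝ (Fin n))).map (fun x => (⟪V, x⟫ : ℝ)) = gaussianReal 0 1 := by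
    simpa using h
  have h3 : (fun g : Fin n → ℝ => g ⬝ᵥ v) = (fun x : EuclideanSpace ℝ (Fin n) => (⟪V, x⟫ : ℝ)) ∘
      WithLp.toLp 2 := by
    funext g
    simp only [Function.comp_apply, PiLp.inner_apply, dotProduct, hV]
    refine Finset.sum_congr rfl fun i _ => ?_
    simp [mul_comm]
  rw [h3, ← Measure.map_map (by fun_prop) hm1]
  simp only [gam]
  rw [map_pi_eq_stdGaussian, h2]

theorem integral_abs_g : ∫ x : ℝ, |x| ∂(gaussianReal 0 1) = Real.sqrt (2 / Real.pi) := by
  rw [integral_gaussianReal_eq_integral_smul (by norm_num)]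
  have h1 : ∀ x : ℝ, gaussianPDFReal 0 1 x • |x| =
      (Real.sqrt (2 * Real.pi))⁻¹ * (|x| * Real.exp (-(1 / 2) * |x| ^ 2)) := by
    intro x
    simp only [gaussianPDFReal, smul_eq_mul, NNReal.coe_one, mul_one, sub_zero, sq_abs]
    rw [show -x ^ 2 / 2 = -(1 / 2) * x ^ 2 by ring]
    ring
  simp only [h1]
  rw [integral_const_mul, integral_comp_abs (f := fun x : ℝ => x * Real.exp (-(1 / 2) * x ^ 2))]
  have h := _root_.integral_rpow_mul_exp_neg_mul_rpow (p := 2) (q := 1) (b := 1 / 2)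
      (by norm_num) (by norm_num) (by norm_num)
  have e3 : ∀ r ∈ Set.Ioi (0 : ℝ), r * Real.exp (-(1 / 2) * r ^ 2) =
      (r ^ (1 : ℝ) * Real.exp (-(1 / 2) * r ^ (2 : ℝ))) := by
    intro r _
    rw [Real.rpow_one, Real.rpow_two]
  rw [setIntegral_congr_fun measurableSet_Ioi e3, h]
  norm_num
  have hpi := Real.pi_pos
  have hs : Real.sqrt Real.pi ≠ 0 := (Real.sqrt_pos.mpr hpi).ne'
  have h2 : Real.sqrt 2 * Real.sqrt 2 = 2 := Real.mul_self_sqrt (by norm_num)
  have h3 : Real.sqrt 2 ≠ 0 := by positivity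
  field_simp
  rw [pow_two, h2]

theorem integrable_abs_g : Integrable (fun x : ℝ => |x|) (gaussianReal 0 1) := by
  have h : MemLp (id : ℝ → ℝ) 1 (gaussianReal 0 1) := memLp_id_gaussianReal 1
  exact (memLp_one_iff_integrable.1 h).abs

theorem integrable_id_g : Integrable (fun x : ℝ => x) (gaussianReal 0 1) := by
  have h : MemLp (id : ℝ → ℝ) 1 (gaussianReal 0 1) := memLp_id_gaussianReal 1
  exact memLp_one_iff_integrable.1 h

theorem inner_one (a : ℝ) : ∫⁻ b, ENNReal.ofReal (max (-(a * b)) 0) ∂(gaussianReal 0 1) =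
    ENNReal.ofReal (Real.sqrt (2 / Real.pi) / 2 * |a|) := by
  have hm : ∀ b : ℝ, max (-(a * b)) 0 = (1 / 2 * |a|) * |b| + (-(1 / 2) * a) * b := by
    intro b
    have : |a| * |b| = |a * b| := (abs_mul a b).symm
    have h2 : (1 / 2 * |a|) * |b| = 1 / 2 * |a * b| := by rw [← this]; ring
    rw [h2]
    rcases le_total (a * b) 0 with h | h
    · rw [max_eq_left (by linarith), abs_of_nonpos h]; ring
    · rw [max_eq_right (by linarith), abs_of_nonneg h]; ring
  have hI : Integrable (fun b : ℝ => max (-(a * b)) 0) (gaussianReal 0 1) := by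
    simp_rw [hm]
    exact (integrable_abs_g.const_mul _).add (integrable_id_g.const_mul _)
  rw [← ofReal_integral_eq_lintegral_ofReal hI (Filter.Eventually.of_forall fun b => le_max_right _ _)]
  congr 1
  simp_rw [hm]
  rw [integral_add (integrable_abs_g.const_mul _) (integrable_id_g.const_mul _), integral_const_mul,
    integral_const_mul, integral_abs_g]
  have : ∫ x : ℝ, x ∂(gaussianReal 0 1) = 0 := by simp
  rw [this]
  ring

theorem outer_one : ∫⁻ a, ENNReal.ofReal (Real.sqrt (2 / Real.pi) / 2 * |a|) ∂(gaussianReal 0 1) =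
    ENNReal.ofReal (1 / Real.pi) := by
  rw [← ofReal_integral_eq_lintegral_ofReal (integrable_abs_g.const_mul _)
    (Filter.Eventually.of_forall fun b => by positivity)]
  congr 1
  rw [integral_const_mul, integral_abs_g]
  have h : Real.sqrt (2 / Real.pi) * Real.sqrt (2 / Real.pi) = 2 / Real.pi :=
    Real.mul_self_sqrt (by positivity)
  calc Real.sqrt (2 / Real.pi) / 2 * Real.sqrt (2 / Real.pi)
      = (Real.sqrt (2 / Real.pi) * Real.sqrt (2 / Real.pi)) / 2 := by ring
    _ = 1 / Real.pi := by rw [h]; ring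

/-- the bilinear integral -/
theorem bilin {u v : Fin n → ℝ} (hu : u ⬝ᵥ u = 1) (hv : v ⬝ᵥ v = 1) :
    ∫⁻ g, ∫⁻ ξ, ENNReal.ofReal (max (-((g ⬝ᵥ v) * (ξ ⬝ᵥ u))) 0) ∂(gam (Fin n)) ∂(gam (Fin n)) =
      ENNReal.ofReal (1 / Real.pi) := by
  have hm : ∀ w : Fin n → ℝ, Measurable fun g : Fin n → ℝ => g ⬝ᵥ w := by
    intro w; unfold dotProduct; fun_prop
  have h1 : ∀ a : ℝ, ∫⁻ ξ, ENNReal.ofReal (max (-(a * (ξ ⬝ᵥ u))) 0) ∂(gam (Fin n)) =
      ENNReal.ofReal (Real.sqrt (2 / Real.pi) / 2 * |a|) := by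
    intro a
    rw [← inner_one a, ← law_dot hu, lintegral_map (by fun_prop) (hm u)]
  simp_rw [h1]
  rw [← outer_one]
  conv_rhs => rw [← law_dot hv]
  rw [lintegral_map (by fun_prop) (hm v)]

theorem lint_sq (i : Fin n) : ∫⁻ ξ : Fin n → ℝ, ENNReal.ofReal (ξ i ^ 2) ∂(gam (Fin n)) = 1 := by
  have h1 : MeasurePreserving (Function.eval i) (gam (Fin n)) (gaussianReal 0 1) :=
    measurePreserving_eval (fun _ : Fin n => gaussianReal 0 1) i
  have h2 := h1.lintegral_comp (f := fun x : ℝ => ENNReal.ofReal (x ^ 2)) (by fun_prop)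
  have h3 : ∫⁻ x : ℝ, ENNReal.ofReal (x ^ 2) ∂(gaussianReal 0 1) = 1 := by
    have hI : Integrable (fun x : ℝ => x ^ 2) (gaussianReal 0 1) := by
      have h : MemLp (id : ℝ → ℝ) 2 (gaussianReal 0 1) := memLp_id_gaussianReal 2
      exact h.integrable_sq
    rw [← ofReal_integral_eq_lintegral_ofReal hI (Filter.Eventually.of_forall fun b => by positivity)]
    have hv := variance_id_gaussianReal (μ := 0) (v := 1)
    rw [variance_eq_integral (by fun_prop)] at hv
    simp only [id_eq, integral_id_gaussianReal, sub_zero, NNReal.coe_one] at hv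
    rw [hv, ENNReal.ofReal_one]
  rw [← h3, ← h2]

theorem lint_norm (hn : 0 < n) :
    ∫⁻ ξ : Fin n → ℝ, ENNReal.ofReal (Real.sqrt (ξ ⬝ᵥ ξ)) ∂(gam (Fin n)) ≤
      ENNReal.ofReal (Real.sqrt n) := by
  have hnr : (0 : ℝ) < n := by exact_mod_cast hn
  have hs : 0 < Real.sqrt n := Real.sqrt_pos.2 hnr
  have hss : Real.sqrt n * Real.sqrt n = n := Real.mul_self_sqrt hnr.le
  have hpt : ∀ ξ : Fin n → ℝ, ENNReal.ofReal (Real.sqrt (ξ ⬝ᵥ ξ)) ≤
      ENNReal.ofReal (1 / (2 * Real.sqrt n)) * ∑ i, ENNReal.ofReal (ξ i ^ 2) +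
        ENNReal.ofReal (Real.sqrt n / 2) := by
    intro ξ
    have h0 : ∑ i, ENNReal.ofReal (ξ i ^ 2) = ENNReal.ofReal (ξ ⬝ᵥ ξ) := by
      rw [← ENNReal.ofReal_sum_of_nonneg (fun i _ => by positivity)]
      congr 1
      unfold dotProduct
      refine Finset.sum_congr rfl fun i _ => by ring
    have h1 : 0 ≤ ξ ⬝ᵥ ξ := dotProduct_self_nonneg' ξ
    rw [h0, ← ENNReal.ofReal_mul (by positivity), ← ENNReal.ofReal_add (by positivity) (by positivity)]
    refine ENNReal.ofReal_le_ofReal ?_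
    set r := Real.sqrt (ξ ⬝ᵥ ξ) with hr
    have hr2 : r * r = ξ ⬝ᵥ ξ := Real.mul_self_sqrt h1
    rw [← hr2]
    have h2 : 0 ≤ (r - Real.sqrt n) ^ 2 := sq_nonneg _
    have h3 : 1 / (2 * Real.sqrt n) * (r * r) + Real.sqrt n / 2 - r =
        (r - Real.sqrt n) ^ 2 / (2 * Real.sqrt n) := by
      field_simp
      nlinarith
    have h4 : 0 ≤ (r - Real.sqrt n) ^ 2 / (2 * Real.sqrt n) := by positivity
    linarith
  refine (lintegral_mono hpt).trans ?_
  rw [lintegral_add_right _ measurable_const, lintegral_const_mul _ (by fun_prop),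
    lintegral_finsetSum _ (fun i _ => by fun_prop)]
  simp_rw [lint_sq]
  rw [Finset.sum_const, Finset.card_univ, Fintype.card_fin, nsmul_eq_mul, mul_one, lintegral_const,
    measure_univ, mul_one, ← ENNReal.ofReal_natCast, ← ENNReal.ofReal_mul (by positivity),
    ← ENNReal.ofReal_add (by positivity) (by positivity)]
  refine ENNReal.ofReal_le_ofReal (le_of_eq ?_)
  have : (1 : ℝ) / (2 * Real.sqrt n) * n = Real.sqrt n / 2 := by
    calc (1 : ℝ) / (2 * Real.sqrt n) * n = 1 / (2 * Real.sqrt n) * (Real.sqrt n * Real.sqrt n) := by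
          rw [hss]
      _ = Real.sqrt n / 2 := by field_simp
  rw [this]; ring

/-- the error functional -/
noncomputable def Er (σ η : ℝ) (w : Om n) : ℝ :=
  σ * (1 + ∑ i, ∑ j, w.1 i j ^ 2) + 2 * σ ^ 2 * (∑ j, w.2 j ^ 2 + ∑ i, ∑ j, w.1 i j ^ 2) / η

theorem Er_nonneg {σ η : ℝ} (hσ : 0 < σ) (hη : 0 < η) (w : Om n) : 0 ≤ Er σ η w := by
  unfold Er
  positivity

theorem lint_Er {σ η : ℝ} (hσ : 0 < σ) (hη : 0 < η) :
    ∫⁻ w, ENNReal.ofReal (Er σ η w) ∂(mu n) ≠ ∞ := by
  have hq1 : ∀ i j : Fin n, Integrable (fun w : Om n => w.1 i j ^ 2) (mu n) := by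
    intro i j
    have hI : Integrable (fun x : ℝ => x ^ 2) (gaussianReal 0 1) := by
      have h : MemLp (id : ℝ → ℝ) 2 (gaussianReal 0 1) := memLp_id_gaussianReal 2
      exact h.integrable_sq
    have h1 : MeasurePreserving (Function.eval j) (gam (Fin n)) (gaussianReal 0 1) :=
      measurePreserving_eval (fun _ : Fin n => gaussianReal 0 1) j
    have h2 : MeasurePreserving (Function.eval i) (muM n n) (gam (Fin n)) :=
      measurePreserving_eval (fun _ : Fin n => gam (Fin n)) i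
    have h3 : MeasurePreserving (Prod.fst : Om n → _) (mu n) (muM n n) := measurePreserving_fst
    exact ((h1.comp h2).comp h3).integrable_comp_of_integrable hI
  have hq2 : ∀ j : Fin n, Integrable (fun w : Om n => w.2 j ^ 2) (mu n) := by
    intro j
    have hI : Integrable (fun x : ℝ => x ^ 2) (gaussianReal 0 1) := by
      have h : MemLp (id : ℝ → ℝ) 2 (gaussianReal 0 1) := memLp_id_gaussianReal 2
      exact h.integrable_sq
    have h1 : MeasurePreserving (Function.eval j) (gam (Fin n)) (gaussianReal 0 1) :=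
      measurePreserving_eval (fun _ : Fin n => gaussianReal 0 1) j
    have h3 : MeasurePreserving (Prod.snd : Om n → _) (mu n) (gam (Fin n)) := measurePreserving_snd
    exact (h1.comp h3).integrable_comp_of_integrable hI
  have hS1 : Integrable (fun w : Om n => ∑ i, ∑ j, w.1 i j ^ 2) (mu n) :=
    integrable_finsetSum _ fun i _ => integrable_finsetSum _ fun j _ => hq1 i j
  have hS2 : Integrable (fun w : Om n => ∑ j, w.2 j ^ 2) (mu n) :=
    integrable_finsetSum _ fun j _ => hq2 j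
  have hE : Integrable (Er σ η : Om n → ℝ) (mu n) := by
    unfold Er
    exact (((integrable_const _).add hS1).const_mul _).add (((hS2.add hS1).const_mul _).div_const _)
  exact hE.lintegral_lt_top.ne

end Pool.Agent.Q215.SV
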