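import Pool.Agent.Q215.SV.Law

set_option autoImplicit false

/-! The lower bound for the decrease of the smallest singular value. -/

open MeasureTheory Set Matrix ProbabilityTheory
open scoped ENNReal

namespace Pool.Agent.Q215.SV

open Pool.Agent.H992R2

variable {n : ℕ}

/-- Euclidean length -/
noncomputable def rr (ξ : Fin n → ℝ) : ℝ := Real.sqrt (ξ ⬝ᵥ ξ)

/-- normalised vector -/
noncomputable def xx (ξ : Fin n → ℝ) : Fin n → ℝ := (rr ξ)⁻¹ • ξ

theorem cs (a b : Fin n → ℝ) : (a ⬝ᵥ b) ^ 2 ≤ (a ⬝ᵥ a) * (b ⬝ᵥ b) := by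
  have h := Finset.sum_mul_sq_le_sq_mul_sq Finset.univ a b
  have h1 : ∀ c : Fin n → ℝ, ∑ i, c i ^ 2 = c ⬝ᵥ c := by
    intro c; unfold dotProduct; exact Finset.sum_congr rfl fun i _ => by ring
  rw [h1, h1] at h
  exact h

theorem rr_nonneg (ξ : Fin n → ℝ) : 0 ≤ rr ξ := Real.sqrt_nonneg _

theorem rr_sq (ξ : Fin n → ℝ) : rr ξ * rr ξ = ξ ⬝ᵥ ξ := Real.mul_self_sqrt (dotProduct_self_nonneg' ξ)

theorem xx_unit {ξ : Fin n → ℝ} (h : rr ξ ≠ 0) : xx ξ ⬝ᵥ xx ξ = 1 := by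
  unfold xx
  rw [smul_dotProduct, dotProduct_smul, smul_eq_mul, smul_eq_mul, ← rr_sq]
  field_simp

theorem sqrt_bound {s y : ℝ} (hs : 0 < s) (hy : 0 ≤ s ^ 2 + y) :
    Real.sqrt (s ^ 2 + y) ≤ s + y / (2 * s) := by
  rw [Real.sqrt_le_iff]
  have h1 : s + y / (2 * s) = (2 * s ^ 2 + y) / (2 * s) := by field_simp
  constructor
  · rw [h1]; apply div_nonneg _ (by positivity); nlinarith [sq_nonneg s]
  · have h2 : (s + y / (2 * s)) ^ 2 = s ^ 2 + y + (y / (2 * s)) ^ 2 := by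
      field_simp
      ring
    rw [h2]; linarith [sq_nonneg (y / (2 * s))]

theorem one_sub_cos_le (δ : ℝ) : 1 - Real.cos δ ≤ δ ^ 2 / 2 := by
  have := Real.one_sub_sq_div_two_le_cos (x := δ)
  linarith

theorem one_sub_cos_sq_le (δ : ℝ) : (Real.cos δ - 1) ^ 2 ≤ δ ^ 2 := by
  have h1 := one_sub_cos_le δ
  have h2 := Real.cos_le_one δ
  have h3 := Real.neg_one_le_cos δ
  nlinarith

theorem sin_sq_le (δ : ℝ) : Real.sin δ ^ 2 ≤ δ ^ 2 := by
  have h := Real.abs_sin_le_abs (x := δ)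
  calc Real.sin δ ^ 2 = |Real.sin δ| ^ 2 := (sq_abs _).symm
    _ ≤ |δ| ^ 2 := pow_le_pow_left₀ (abs_nonneg _) h 2
    _ = δ ^ 2 := sq_abs _

/-- **Pointwise bound.** -/
theorem pointwise (Abar : Matrix (Fin n) (Fin n) ℝ) {σ ε η δ : ℝ} (hσ : 0 < σ) (hη : 0 < η)
    (hδ : 0 ≤ Real.sin δ) (G : Fin n → Fin n → ℝ) (g ξ v : Fin n → ℝ) (hv : v ⬝ᵥ v = 1)
    (hmin : Real.sqrt (((Abar + σ • Matrix.of G) *ᵥ v) ⬝ᵥ ((Abar + σ • Matrix.of G) *ᵥ v)) =
      mv (Abar + σ • Matrix.of G))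
    (h1 : η ≤ mv (Abar + σ • Matrix.of G)) (h2 : mv (Abar + σ • Matrix.of G) ≤ ε) :
    σ * Real.sin δ * max (-((g ⬝ᵥ v) * (ξ ⬝ᵥ ((mv (Abar + σ • Matrix.of G))⁻¹ •
      ((Abar + σ • Matrix.of G) *ᵥ v))))) 0 ≤
      rr ξ * max (ff Abar σ ε (G, g) - ff Abar σ ε (rot (xx ξ) δ (G, g))) 0 +
        δ ^ 2 * Er σ η (G, g) * rr ξ := by
  set A := Abar + σ • Matrix.of G with hA
  set s := mv A with hs
  set w := A *ᵥ v with hw
  have hs0 : 0 < s := lt_of_lt_of_le hη h1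
  have hww : w ⬝ᵥ w = s ^ 2 := by
    rw [← hmin, Real.sq_sqrt (dotProduct_self_nonneg' _)]
  set u := s⁻¹ • w with hu
  have huu : u ⬝ᵥ u = 1 := by
    rw [hu, smul_dotProduct, dotProduct_smul, smul_eq_mul, smul_eq_mul, hww]; field_simp
  have hEr := Er_nonneg hσ hη ((G, g) : Om n)
  by_cases hr : rr ξ = 0
  · have hξ : ξ = 0 := by
      have h3 := rr_sq ξ
      rw [hr, mul_zero] at h3
      exact dotProduct_self_eq_zero.1 h3.symm
    rw [hr, hξ]
    simp
  · have hrpos : 0 < rr ξ := lt_of_le_of_ne (rr_nonneg ξ) (Ne.symm hr)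
    set x := xx ξ with hx
    have hxx : x ⬝ᵥ x = 1 := xx_unit hr
    have hξ : ξ = rr ξ • x := by
      rw [hx]; unfold xx; rw [smul_smul, mul_inv_cancel₀ hr, one_smul]
    set z := (Real.cos δ - 1) • (σ • (x ᵥ* Matrix.of G)) + Real.sin δ • (σ • g) with hz
    set t := z ⬝ᵥ v with ht
    have hrot : Abar + σ • Matrix.of (rot x δ (G, g)).1 = A + vecMulVec x z := by
      rw [rot_fst]; rfl
    have hAv : (A + vecMulVec x z) *ᵥ v = w + t • x := by
      rw [add_mulVec, vecMulVec_mulVec, ht]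
      congr 1
      ext i; simp [mul_comm]
    have hnorm : ((A + vecMulVec x z) *ᵥ v) ⬝ᵥ ((A + vecMulVec x z) *ᵥ v) =
        s ^ 2 + (2 * t * (w ⬝ᵥ x) + t ^ 2) := by
      rw [hAv, add_dotProduct, dotProduct_add, dotProduct_add, smul_dotProduct, smul_dotProduct,
        dotProduct_smul, dotProduct_smul, hww, hxx, dotProduct_comm x w]
      simp only [smul_eq_mul]
      ring
    have hle : mv (A + vecMulVec x z) ≤ s + (2 * t * (w ⬝ᵥ x) + t ^ 2) / (2 * s) := by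
      refine (mv_le _ hv).trans ?_
      rw [hnorm]
      refine sqrt_bound hs0 ?_
      rw [← hnorm]; exact dotProduct_self_nonneg' _
    have hux : u ⬝ᵥ x = (w ⬝ᵥ x) / s := by
      rw [hu, smul_dotProduct, smul_eq_mul]; field_simp
    have hle2 : mv (A + vecMulVec x z) ≤ s + t * (u ⬝ᵥ x) + t ^ 2 / (2 * η) := by
      have e1 : s + (2 * t * (w ⬝ᵥ x) + t ^ 2) / (2 * s) = s + t * (u ⬝ᵥ x) + t ^ 2 / (2 * s) := by
        rw [hux]; field_simp
        ring
      have e2 : t ^ 2 / (2 * s) ≤ t ^ 2 / (2 * η) := by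
        apply div_le_div_of_nonneg_left (sq_nonneg t) (by positivity) (by linarith)
      linarith [hle, e1.le]
    -- bounds on the pieces
    set a := (x ᵥ* Matrix.of G) ⬝ᵥ v with ha
    set b := g ⬝ᵥ v with hb
    set Q := ∑ i, ∑ j, G i j ^ 2 with hQ
    set q := ∑ j, g j ^ 2 with hq
    have htt : t = σ * ((Real.cos δ - 1) * a + Real.sin δ * b) := by
      rw [ht, hz, add_dotProduct, smul_dotProduct, smul_dotProduct, smul_dotProduct, smul_dotProduct]
      simp only [smul_eq_mul]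
      rw [← ha, ← hb]; ring
    have hQ0 : 0 ≤ Q := by positivity
    have hq0 : 0 ≤ q := by positivity
    have ha2 : a ^ 2 ≤ Q := by
      have e1 : a = x ⬝ᵥ (Matrix.of G *ᵥ v) := by rw [ha, dotProduct_mulVec]
      have e2 := cs x (Matrix.of G *ᵥ v)
      rw [hxx, one_mul, ← e1] at e2
      refine e2.trans ?_
      unfold dotProduct
      refine Finset.sum_le_sum fun i _ => ?_
      have e3 := cs (fun j => G i j) v
      rw [hv, mul_one] at e3
      have e4 : (Matrix.of G *ᵥ v) i = (fun j => G i j) ⬝ᵥ v := rfl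
      rw [e4, ← sq]
      refine e3.trans (le_of_eq ?_)
      unfold dotProduct
      exact Finset.sum_congr rfl fun j _ => by ring
    have hb2 : b ^ 2 ≤ q := by
      have e2 := cs g v
      rw [hv, mul_one] at e2
      refine e2.trans (le_of_eq ?_)
      rw [hq]; unfold dotProduct
      exact Finset.sum_congr rfl fun j _ => by ring
    have hux2 : (u ⬝ᵥ x) ^ 2 ≤ 1 := by
      have := cs u x
      rw [huu, hxx, one_mul] at this
      exact this
    have habs_ux : |u ⬝ᵥ x| ≤ 1 := by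
      rw [abs_le]; constructor <;> nlinarith
    have ht2 : t ^ 2 / (2 * η) ≤ δ ^ 2 * (2 * σ ^ 2 * (q + Q) / η) := by
      have e1 : t ^ 2 ≤ 2 * σ ^ 2 * (δ ^ 2 * Q + δ ^ 2 * q) := by
        have f1 := one_sub_cos_sq_le δ
        have f2 := sin_sq_le δ
        have f3 : (Real.cos δ - 1) ^ 2 * a ^ 2 ≤ δ ^ 2 * Q :=
          mul_le_mul f1 ha2 (sq_nonneg _) (sq_nonneg _)
        have f4 : Real.sin δ ^ 2 * b ^ 2 ≤ δ ^ 2 * q :=
          mul_le_mul f2 hb2 (sq_nonneg _) (sq_nonneg _)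
        have f5 : ((Real.cos δ - 1) * a + Real.sin δ * b) ^ 2 ≤
            2 * ((Real.cos δ - 1) ^ 2 * a ^ 2 + Real.sin δ ^ 2 * b ^ 2) := by
          nlinarith [sq_nonneg ((Real.cos δ - 1) * a - Real.sin δ * b)]
        rw [htt, mul_pow]
        have f6 : 0 < σ ^ 2 := by positivity
        nlinarith
      have e2 : t ^ 2 / (2 * η) ≤ (2 * σ ^ 2 * (δ ^ 2 * Q + δ ^ 2 * q)) / (2 * η) :=
        div_le_div_of_nonneg_right e1 (by positivity)
      have e3 : (2 * σ ^ 2 * (δ ^ 2 * Q + δ ^ 2 * q)) / (2 * η) =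
          (1 / 2) * (δ ^ 2 * (2 * σ ^ 2 * (q + Q) / η)) := by
        field_simp; ring
      have e4 : 0 ≤ δ ^ 2 * (2 * σ ^ 2 * (q + Q) / η) := by positivity
      linarith
    have hmain : -(σ * Real.sin δ * (b * (u ⬝ᵥ x))) ≤
        (ff Abar σ ε (G, g) - ff Abar σ ε (rot x δ (G, g))) + δ ^ 2 * Er σ η (G, g) := by
      have e1 : ff Abar σ ε (G, g) = s := by
        unfold ff; exact min_eq_left h2
      have e2 : ff Abar σ ε (rot x δ (G, g)) ≤ mv (A + vecMulVec x z) := by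
        unfold ff; rw [hrot]; exact min_le_left _ _
      have e3 : t * (u ⬝ᵥ x) ≤ σ * Real.sin δ * (b * (u ⬝ᵥ x)) + δ ^ 2 * (σ * (1 + Q)) := by
        have f1 : t * (u ⬝ᵥ x) = σ * Real.sin δ * (b * (u ⬝ᵥ x)) +
            σ * ((Real.cos δ - 1) * (a * (u ⬝ᵥ x))) := by rw [htt]; ring
        have f2 : (Real.cos δ - 1) * (a * (u ⬝ᵥ x)) ≤ δ ^ 2 * (1 + Q) := by
          have g1 : |a| ≤ 1 + Q := by
            rw [abs_le]; constructor <;> nlinarith [sq_nonneg (a - 1), sq_nonneg (a + 1)]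
          have g2 : |a * (u ⬝ᵥ x)| ≤ 1 + Q := by
            rw [abs_mul]
            calc |a| * |u ⬝ᵥ x| ≤ (1 + Q) * 1 :=
                  mul_le_mul g1 habs_ux (abs_nonneg _) (by linarith)
              _ = 1 + Q := mul_one _
          have g3 := one_sub_cos_le δ
          have g4 := Real.cos_le_one δ
          have g5 := neg_abs_le (a * (u ⬝ᵥ x))
          nlinarith [sq_nonneg δ]
        rw [f1]
        have := mul_le_mul_of_nonneg_left f2 hσ.le
        linarith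
      have e4 : Er σ η ((G, g) : Om n) = σ * (1 + Q) + 2 * σ ^ 2 * (q + Q) / η := rfl
      rw [e1, e4, mul_add]
      linarith
    have hmax : max (-(σ * Real.sin δ * (b * (u ⬝ᵥ x)))) 0 ≤
        max (ff Abar σ ε (G, g) - ff Abar σ ε (rot x δ (G, g))) 0 + δ ^ 2 * Er σ η (G, g) := by
      apply max_le
      · have h7 := le_max_left (ff Abar σ ε (G, g) - ff Abar σ ε (rot x δ (G, g))) 0
        exact hmain.trans (by linarith)
      · have h7 := le_max_right (ff Abar σ ε (G, g) - ff Abar σ ε (rot x δ (G, g))) 0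
        have h8 := mul_nonneg (sq_nonneg δ) hEr
        linarith
    have hL : σ * Real.sin δ * max (-(b * (ξ ⬝ᵥ u))) 0 =
        rr ξ * max (-(σ * Real.sin δ * (b * (u ⬝ᵥ x)))) 0 := by
      have e1 : ξ ⬝ᵥ u = rr ξ * (u ⬝ᵥ x) := by
        conv_lhs => rw [hξ]
        rw [smul_dotProduct, smul_eq_mul, dotProduct_comm]
      rw [e1, mul_max_of_nonneg _ _ (by positivity), mul_max_of_nonneg _ _ hrpos.le, mul_zero,
        mul_zero]
      congr 1
      ring
    rw [hL]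
    calc rr ξ * max (-(σ * Real.sin δ * (b * (u ⬝ᵥ x)))) 0
        ≤ rr ξ * (max (ff Abar σ ε (G, g) - ff Abar σ ε (rot x δ (G, g))) 0 +
            δ ^ 2 * Er σ η (G, g)) := mul_le_mul_of_nonneg_left hmax hrpos.le
      _ = _ := by ring

end Pool.Agent.Q215.SV
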