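import Pool.Agent.Q215.SV.Trig

set_option autoImplicit false

/-! The smallest singular value along a circle of rank one perturbations. -/

open MeasureTheory Set Matrix

namespace Pool.Agent.Q215.SV

variable {n : ℕ}

/-- the unit sphere -/
def Sph (n : ℕ) : Set (Fin n → ℝ) := {v | v ⬝ᵥ v = 1}

/-- the smallest singular value -/
noncomputable def mv (A : Matrix (Fin n) (Fin n) ℝ) : ℝ :=
  sInf ((fun v : Fin n → ℝ => Real.sqrt ((A *ᵥ v) ⬝ᵥ (A *ᵥ v))) '' Sph n)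

theorem dotProduct_self_nonneg' (v : Fin n → ℝ) : 0 ≤ v ⬝ᵥ v :=
  Finset.sum_nonneg fun i _ => mul_self_nonneg (v i)

theorem isCompact_Sph : IsCompact (Sph n) := by
  have hcl : IsClosed (Sph n) := by
    have : Continuous fun v : Fin n → ℝ => v ⬝ᵥ v := by
      unfold dotProduct; fun_prop
    exact isClosed_eq this continuous_const
  refine Metric.isCompact_of_isClosed_isBounded hcl ?_
  refine (Metric.isBounded_closedBall (x := (0 : Fin n → ℝ)) (r := 1)).subset ?_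
  intro v hv
  rw [mem_closedBall_zero_iff, pi_norm_le_iff_of_nonneg (by norm_num)]
  intro i
  have h1 : v i * v i ≤ 1 := by
    have : v i * v i ≤ ∑ j, v j * v j :=
      Finset.single_le_sum (f := fun j => v j * v j) (fun j _ => mul_self_nonneg (v j))
        (Finset.mem_univ i)
    have h2 : ∑ j, v j * v j = 1 := hv
    linarith
  rw [Real.norm_eq_abs, abs_le]
  constructor <;> nlinarith

theorem Sph_nonempty (hn : 0 < n) : (Sph n).Nonempty :=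
  ⟨Pi.single ⟨0, hn⟩ 1, by simp [Sph]⟩

theorem cont_fun : Continuous fun p : Matrix (Fin n) (Fin n) ℝ × (Fin n → ℝ) =>
    Real.sqrt ((p.1 *ᵥ p.2) ⬝ᵥ (p.1 *ᵥ p.2)) := by
  have h : Continuous fun p : Matrix (Fin n) (Fin n) ℝ × (Fin n → ℝ) => p.1 *ᵥ p.2 :=
    continuous_fst.matrix_mulVec continuous_snd
  exact Real.continuous_sqrt.comp (h.dotProduct h)

theorem continuous_mv : Continuous (mv : Matrix (Fin n) (Fin n) ℝ → ℝ) := by
  unfold mv
  exact isCompact_Sph.continuous_sInf (f := fun (A : Matrix (Fin n) (Fin n) ℝ) (v : Fin n → ℝ) =>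
    Real.sqrt ((A *ᵥ v) ⬝ᵥ (A *ᵥ v))) cont_fun

theorem bddBelow_img (A : Matrix (Fin n) (Fin n) ℝ) :
    BddBelow ((fun v : Fin n → ℝ => Real.sqrt ((A *ᵥ v) ⬝ᵥ (A *ᵥ v))) '' Sph n) :=
  ⟨0, by rintro _ ⟨v, -, rfl⟩; exact Real.sqrt_nonneg _⟩

theorem mv_le (A : Matrix (Fin n) (Fin n) ℝ) {v : Fin n → ℝ} (hv : v ⬝ᵥ v = 1) :
    mv A ≤ Real.sqrt ((A *ᵥ v) ⬝ᵥ (A *ᵥ v)) :=
  csInf_le (bddBelow_img A) ⟨v, hv, rfl⟩

theorem exists_min (hn : 0 < n) (A : Matrix (Fin n) (Fin n) ℝ) :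
    ∃ v : Fin n → ℝ, v ⬝ᵥ v = 1 ∧ Real.sqrt ((A *ᵥ v) ⬝ᵥ (A *ᵥ v)) = mv A := by
  have hc : ContinuousOn (fun v : Fin n → ℝ => Real.sqrt ((A *ᵥ v) ⬝ᵥ (A *ᵥ v))) (Sph n) := by
    have : Continuous fun v : Fin n → ℝ => ((A, v) : Matrix (Fin n) (Fin n) ℝ × (Fin n → ℝ)) := by
      fun_prop
    exact (cont_fun.comp this).continuousOn
  obtain ⟨v, hv, h⟩ := isCompact_Sph.exists_sInf_image_eq (Sph_nonempty hn) hc
  exact ⟨v, hv, h.symm⟩

theorem mv_nonneg (A : Matrix (Fin n) (Fin n) ℝ) : 0 ≤ mv A :=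
  Real.sInf_nonneg (by rintro _ ⟨v, -, rfl⟩; exact Real.sqrt_nonneg _)

/-- the quadratic form is at least `mv A ^ 2` times the norm squared -/
theorem quad_ge (A : Matrix (Fin n) (Fin n) ℝ) (w : Fin n → ℝ) :
    mv A ^ 2 * (w ⬝ᵥ w) ≤ (A *ᵥ w) ⬝ᵥ (A *ᵥ w) := by
  by_cases hw : w ⬝ᵥ w = 0
  · rw [hw, mul_zero]; exact dotProduct_self_nonneg' _
  · have hpos : 0 < w ⬝ᵥ w := lt_of_le_of_ne (dotProduct_self_nonneg' w) (Ne.symm hw)
    set r := Real.sqrt (w ⬝ᵥ w) with hr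
    have hr2 : r * r = w ⬝ᵥ w := Real.mul_self_sqrt hpos.le
    have hrpos : 0 < r := Real.sqrt_pos.2 hpos
    have h1 : (r⁻¹ • w) ⬝ᵥ (r⁻¹ • w) = 1 := by
      rw [smul_dotProduct, dotProduct_smul, smul_eq_mul, smul_eq_mul, ← hr2]
      field_simp
    have h2 := mv_le A h1
    have h3 : (A *ᵥ (r⁻¹ • w)) ⬝ᵥ (A *ᵥ (r⁻¹ • w)) = r⁻¹ * r⁻¹ * ((A *ᵥ w) ⬝ᵥ (A *ᵥ w)) := by
      rw [mulVec_smul, smul_dotProduct, dotProduct_smul, smul_eq_mul, smul_eq_mul]; ring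
    rw [h3] at h2
    have h4 : mv A ^ 2 ≤ r⁻¹ * r⁻¹ * ((A *ᵥ w) ⬝ᵥ (A *ᵥ w)) := by
      have h5 : 0 ≤ r⁻¹ * r⁻¹ * ((A *ᵥ w) ⬝ᵥ (A *ᵥ w)) :=
        mul_nonneg (by positivity) (dotProduct_self_nonneg' _)
      calc mv A ^ 2 ≤ Real.sqrt (r⁻¹ * r⁻¹ * ((A *ᵥ w) ⬝ᵥ (A *ᵥ w))) ^ 2 :=
            pow_le_pow_left₀ (mv_nonneg A) h2 2
        _ = _ := Real.sq_sqrt h5
    calc mv A ^ 2 * (w ⬝ᵥ w) ≤ r⁻¹ * r⁻¹ * ((A *ᵥ w) ⬝ᵥ (A *ᵥ w)) * (w ⬝ᵥ w) :=
          mul_le_mul_of_nonneg_right h4 hpos.le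
      _ = (A *ᵥ w) ⬝ᵥ (A *ᵥ w) := by
          rw [← hr2]; field_simp

theorem det_zero (hn : 0 < n) (A : Matrix (Fin n) (Fin n) ℝ) :
    (Aᵀ * A - (mv A ^ 2) • (1 : Matrix (Fin n) (Fin n) ℝ)).det = 0 := by
  obtain ⟨v, hv, hv2⟩ := exists_min hn A
  have hq : ∀ w : Fin n → ℝ, w ⬝ᵥ ((Aᵀ * A - (mv A ^ 2) • (1 : Matrix (Fin n) (Fin n) ℝ)) *ᵥ w) =
      (A *ᵥ w) ⬝ᵥ (A *ᵥ w) - mv A ^ 2 * (w ⬝ᵥ w) := by
    intro w
    rw [sub_mulVec, dotProduct_sub, smul_mulVec, one_mulVec, dotProduct_smul, smul_eq_mul,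
      ← mulVec_mulVec, dotProduct_mulVec, vecMul_transpose]
  have hpsd : (Aᵀ * A - (mv A ^ 2) • (1 : Matrix (Fin n) (Fin n) ℝ)).PosSemidef := by
    refine PosSemidef.of_dotProduct_mulVec_nonneg ?_ ?_
    · rw [IsHermitian, conjTranspose_eq_transpose_of_trivial, transpose_sub, transpose_mul,
        transpose_transpose, transpose_smul, transpose_one]
    · intro w
      rw [star_trivial, hq]
      linarith [quad_ge A w]
  have h0 : (Aᵀ * A - (mv A ^ 2) • (1 : Matrix (Fin n) (Fin n) ℝ)) *ᵥ v = 0 := by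
    rw [← hpsd.dotProduct_mulVec_zero_iff, star_trivial, hq, hv, ← hv2,
      Real.sq_sqrt (dotProduct_self_nonneg' _)]
    ring
  refine exists_mulVec_eq_zero_iff.1 ⟨v, ?_, h0⟩
  intro h
  rw [h] at hv
  simp at hv

/-- determinant of a rank one perturbation -/
theorem det_rank_one (M : Matrix (Fin n) (Fin n) ℝ) (U c : Fin n → ℝ) :
    (M + vecMulVec U c).det = M.det + c ⬝ᵥ (M.adjugate *ᵥ U) := by
  have hinv : ∀ B : Matrix (Fin n) (Fin n) ℝ, B.det ≠ 0 →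
      (B + vecMulVec U c).det = B.det + c ⬝ᵥ (B.adjugate *ᵥ U) := by
    intro B hB
    have h1 : B + vecMulVec U c = B * (1 + vecMulVec (B⁻¹ *ᵥ U) c) := by
      rw [Matrix.mul_add, Matrix.mul_one, Matrix.mul_vecMulVec, Matrix.mulVec_mulVec,
        Matrix.mul_nonsing_inv _ (isUnit_iff_ne_zero.mpr hB), Matrix.one_mulVec]
    rw [h1, Matrix.det_mul, vecMulVec_eq Unit, det_one_add_replicateCol_mul_replicateRow,
      Matrix.inv_def, Ring.inverse_eq_inv', Matrix.smul_mulVec, dotProduct_smul, smul_eq_mul]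
    field_simp
  have hc1 : Continuous fun ε : ℝ => ((M + ε • (1 : Matrix (Fin n) (Fin n) ℝ)) +
      vecMulVec U c).det :=
    Continuous.matrix_det (by fun_prop)
  have hc2 : Continuous fun ε : ℝ => (M + ε • (1 : Matrix (Fin n) (Fin n) ℝ)).det +
      c ⬝ᵥ ((M + ε • (1 : Matrix (Fin n) (Fin n) ℝ)).adjugate *ᵥ U) := by
    have h2 : Continuous fun ε : ℝ => (M + ε • (1 : Matrix (Fin n) (Fin n) ℝ)) := by fun_prop
    exact h2.matrix_det.add (continuous_const.dotProduct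
      (h2.matrix_adjugate.matrix_mulVec continuous_const))
  have hdense : Dense {ε : ℝ | (M + ε • (1 : Matrix (Fin n) (Fin n) ℝ)).det ≠ 0} := by
    have h3 : {ε : ℝ | (M + ε • (1 : Matrix (Fin n) (Fin n) ℝ)).det ≠ 0} =
        ({ε : ℝ | ((-M).charpoly).IsRoot ε})ᶜ := by
      ext ε
      simp only [Set.mem_setOf_eq, Set.mem_compl_iff, Polynomial.IsRoot.def, Matrix.eval_charpoly,
        ne_eq]
      rw [show (Matrix.scalar (Fin n) ε - -M) = M + ε • (1 : Matrix (Fin n) (Fin n) ℝ) by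
        rw [sub_neg_eq_add, add_comm, Matrix.scalar_apply, ← Matrix.smul_one_eq_diagonal]]
    rw [h3]
    refine Set.Countable.dense_compl ℝ ?_
    refine Set.Finite.countable ?_
    exact Polynomial.finite_setOfPred_isRoot (Matrix.charpoly_monic _).ne_zero
  have heq := Continuous.ext_on hdense hc1 hc2 (fun ε hε => hinv _ hε)
  have h4 := congrFun heq 0
  simpa using h4

/-- the path of rank one perturbations -/
noncomputable def pth (B : Matrix (Fin n) (Fin n) ℝ) (x p q : Fin n → ℝ) (θ : ℝ) :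
    Matrix (Fin n) (Fin n) ℝ :=
  B + vecMulVec x ((Real.cos θ - 1) • p + Real.sin θ • q)

theorem continuous_pth (B : Matrix (Fin n) (Fin n) ℝ) (x p q : Fin n → ℝ) :
    Continuous (pth B x p q) := by
  unfold pth
  refine continuous_const.add ?_
  refine Continuous.matrix_vecMulVec continuous_const ?_
  fun_prop

theorem gram_pth (B : Matrix (Fin n) (Fin n) ℝ) {x : Fin n → ℝ} (hx : x ⬝ᵥ x = 1)
    (p q : Fin n → ℝ) (θ : ℝ) :
    (pth B x p q θ)ᵀ * pth B x p q θ =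
      (B - vecMulVec x (x ᵥ* B))ᵀ * (B - vecMulVec x (x ᵥ* B)) +
        vecMulVec (x ᵥ* B + ((Real.cos θ - 1) • p + Real.sin θ • q))
          (x ᵥ* B + ((Real.cos θ - 1) • p + Real.sin θ • q)) := by
  set z := (Real.cos θ - 1) • p + Real.sin θ • q with hz
  set C := B - vecMulVec x (x ᵥ* B) with hC
  have h0 : x ᵥ* C = 0 := by
    rw [hC, vecMul_sub, vecMul_vecMulVec, hx, one_smul, sub_self]
  have h1 : pth B x p q θ = C + vecMulVec x (x ᵥ* B + z) := by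
    change B + vecMulVec x z = C + _
    rw [hC, vecMulVec_add x (x ᵥ* B) z]
    abel
  have h2 : Cᵀ *ᵥ x = 0 := by rw [mulVec_transpose]; exact h0
  rw [h1, transpose_add, transpose_vecMulVec, Matrix.add_mul, Matrix.mul_add, Matrix.mul_add,
    mul_vecMulVec, h2, vecMulVec_mul, h0, vecMulVec_mul_vecMulVec, hx]
  simp

/-- the characteristic determinant along the path is a trigonometric polynomial of degree two -/
theorem path_tp (B : Matrix (Fin n) (Fin n) ℝ) {x : Fin n → ℝ} (hx : x ⬝ᵥ x = 1)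
    (p q : Fin n → ℝ) (s : ℝ) :
    ∃ a : Fin 6 → ℝ, ∀ θ, ((pth B x p q θ)ᵀ * pth B x p q θ -
      (s ^ 2) • (1 : Matrix (Fin n) (Fin n) ℝ)).det = tp a θ := by
  set C := B - vecMulVec x (x ᵥ* B) with hC
  set K := Cᵀ * C - (s ^ 2) • (1 : Matrix (Fin n) (Fin n) ℝ) with hK
  set N := K.adjugate with hN
  set y := x ᵥ* B - p with hy
  refine ⟨![K.det + y ⬝ᵥ (N *ᵥ y), y ⬝ᵥ (N *ᵥ p) + p ⬝ᵥ (N *ᵥ y), y ⬝ᵥ (N *ᵥ q) + q ⬝ᵥ (N *ᵥ y),
    p ⬝ᵥ (N *ᵥ p), p ⬝ᵥ (N *ᵥ q) + q ⬝ᵥ (N *ᵥ p), q ⬝ᵥ (N *ᵥ q)], fun θ => ?_⟩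
  have h1 : x ᵥ* B + ((Real.cos θ - 1) • p + Real.sin θ • q) =
      y + Real.cos θ • p + Real.sin θ • q := by
    rw [hy, sub_smul, one_smul]; abel
  rw [gram_pth B hx p q θ, h1]
  have h2 : Cᵀ * C + vecMulVec (y + Real.cos θ • p + Real.sin θ • q)
      (y + Real.cos θ • p + Real.sin θ • q) - (s ^ 2) • (1 : Matrix (Fin n) (Fin n) ℝ) =
      K + vecMulVec (y + Real.cos θ • p + Real.sin θ • q)
      (y + Real.cos θ • p + Real.sin θ • q) := by
    rw [hK]; abel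
  rw [h2, det_rank_one]
  simp only [tp, mulVec_add, mulVec_smul, add_dotProduct, dotProduct_add, smul_dotProduct,
    dotProduct_smul, smul_eq_mul, Matrix.cons_val]
  ring

/-- **Variation of the smallest singular value along the circle.** -/
theorem path_var (hn : 0 < n) (B : Matrix (Fin n) (Fin n) ℝ) {x : Fin n → ℝ} (hx : x ⬝ᵥ x = 1)
    (p q : Fin n → ℝ) {ε : ℝ} (hε : 0 < ε) (N : ℕ) :
    ∑ k ∈ Finset.range N, |min (mv (pth B x p q (2 * Real.pi * (k + 1) / N))) ε -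
      min (mv (pth B x p q (2 * Real.pi * k / N))) ε| ≤ 4 * ε := by
  have hZfin : {s : ℝ | (Bᵀ * B - (s ^ 2) • (1 : Matrix (Fin n) (Fin n) ℝ)).det = 0}.Finite := by
    have hsub : {s : ℝ | (Bᵀ * B - (s ^ 2) • (1 : Matrix (Fin n) (Fin n) ℝ)).det = 0} ⊆
        {s : ℝ | ((Bᵀ * B).charpoly.comp (Polynomial.X ^ 2)).IsRoot s} := by
      intro s hs
      rw [mem_setOf_eq] at hs
      rw [mem_setOf_eq, Polynomial.IsRoot.def, Polynomial.eval_comp, Matrix.eval_charpoly]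
      simp only [Polynomial.eval_pow, Polynomial.eval_X]
      have h1 : (Matrix.scalar (Fin n)) (s ^ 2) - Bᵀ * B =
          -(Bᵀ * B - (s ^ 2) • (1 : Matrix (Fin n) (Fin n) ℝ)) := by
        rw [Matrix.scalar_apply, ← Matrix.smul_one_eq_diagonal]; abel
      rw [h1, det_neg, hs, mul_zero]
    refine (Polynomial.finite_setOfPred_isRoot ?_).subset hsub
    intro h0
    have hm : ((Bᵀ * B).charpoly.comp (Polynomial.X ^ 2)).Monic :=
      (Matrix.charpoly_monic _).comp (Polynomial.monic_X_pow 2) (by simp)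
    rw [h0] at hm
    exact Polynomial.not_monic_zero hm
  refine variation (fun θ => mv (pth B x p q θ)) (continuous_mv.comp (continuous_pth B x p q))
    (fun θ => mv_nonneg _) ε hε _ hZfin ?_ N
  intro s hs hsZ F hF hF2
  obtain ⟨a, ha⟩ := path_tp B hx p q s
  have h0 : tp a 0 ≠ 0 := by
    rw [← ha 0]
    intro h
    apply hsZ
    have h1 : pth B x p q 0 = B := by
      simp [pth]
    rw [h1] at h
    exact h
  refine tp_zeros a 0 h0 F hF ?_
  intro θ hθ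
  rw [← ha θ]
  have h1 := det_zero hn (pth B x p q θ)
  rw [hF2 θ hθ] at h1
  exact h1

end Pool.Agent.Q215.SV
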