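import Pool.Agent.Q215.SV.Min
import Pool.Agent.H992R2.Rot

set_option autoImplicit false

/-! Rotation of one row direction of a Gaussian matrix into an independent Gaussian vector. -/

open MeasureTheory Set Matrix ProbabilityTheory

namespace Pool.Agent.Q215.SV

open Pool.Agent.H992R2

variable {n : ℕ}

/-- pairs of a Gaussian matrix and an independent Gaussian vector -/
abbrev Om (n : ℕ) : Type := (Fin n → Fin n → ℝ) × (Fin n → ℝ)

/-- the Gaussian measure on pairs -/
noncomputable abbrev mu (n : ℕ) : Measure (Om n) := (muM n n).prod (gam (Fin n))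

/-- the rotation -/
noncomputable def rot (x : Fin n → ℝ) (θ : ℝ) (w : Om n) : Om n :=
  (fun i j => w.1 i j + x i * ((Real.cos θ - 1) * ∑ l, x l * w.1 l j + Real.sin θ * w.2 j),
    fun j => Real.cos θ * w.2 j - Real.sin θ * ∑ l, x l * w.1 l j)

/-- the index type -/
abbrev Ix (n : ℕ) : Type := (Fin n × Fin n) ⊕ Fin n

/-- identification of the pairs with a product of lines -/
noncomputable def ee (n : ℕ) : Om n ≃ᵐ (Ix n → ℝ) :=
  (MeasurableEquiv.prodCongr (MeasurableEquiv.curry (Fin n) (Fin n) ℝ).symm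
    (MeasurableEquiv.refl (Fin n → ℝ))).trans
    (MeasurableEquiv.sumPiEquivProdPi (fun _ : Ix n => ℝ)).symm

theorem mp_ee (n : ℕ) : MeasurePreserving (ee n) (mu n) (gam (Ix n)) := by
  have h1 : MeasurePreserving (MeasurableEquiv.prodCongr (MeasurableEquiv.curry (Fin n) (Fin n) ℝ).symm
      (MeasurableEquiv.refl (Fin n → ℝ))) (mu n) ((gam (Fin n × Fin n)).prod (gam (Fin n))) :=
    (mp_curry n n).prod (MeasurePreserving.id _)
  have h2 : MeasurePreserving (MeasurableEquiv.sumPiEquivProdPi (fun _ : Ix n => ℝ)).symm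
      ((gam (Fin n × Fin n)).prod (gam (Fin n))) (gam (Ix n)) :=
    measurePreserving_sumPiEquivProdPi_symm (fun _ : Ix n => gaussianReal 0 1)
  exact h2.comp h1

/-- the rotation as a linear map -/
noncomputable def rotL (x : Fin n → ℝ) (θ : ℝ) : (Ix n → ℝ) →ₗ[ℝ] (Ix n → ℝ) where
  toFun f := Sum.elim
    (fun p => f (Sum.inl p) + x p.1 * ((Real.cos θ - 1) * ∑ l, x l * f (Sum.inl (l, p.2)) +
      Real.sin θ * f (Sum.inr p.2)))
    (fun j => Real.cos θ * f (Sum.inr j) - Real.sin θ * ∑ l, x l * f (Sum.inl (l, j)))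
  map_add' f g := by
    funext i
    rcases i with p | j
    · simp only [Sum.elim_inl, Pi.add_apply, mul_add, Finset.sum_add_distrib]; ring
    · simp only [Sum.elim_inr, Pi.add_apply, mul_add, Finset.sum_add_distrib]; ring
  map_smul' c f := by
    funext i
    have h : ∀ j, ∑ l, x l * (c * f (Sum.inl (l, j))) = c * ∑ l, x l * f (Sum.inl (l, j)) := by
      intro j; rw [Finset.mul_sum]; refine Finset.sum_congr rfl fun l _ => by ring
    rcases i with p | j
    · simp only [Sum.elim_inl, Pi.smul_apply, smul_eq_mul, RingHom.id_apply, h]; ring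
    · simp only [Sum.elim_inr, Pi.smul_apply, smul_eq_mul, RingHom.id_apply, h]; ring

theorem rotL_sq {x : Fin n → ℝ} (hx : x ⬝ᵥ x = 1) (θ : ℝ) (f : Ix n → ℝ) :
    ∑ i, (rotL x θ f i) ^ 2 = ∑ i, (f i) ^ 2 := by
  have hx' : ∑ i, x i ^ 2 = 1 := by
    rw [← hx]; unfold dotProduct; refine Finset.sum_congr rfl fun i _ => by ring
  rw [Fintype.sum_sum_type, Fintype.sum_sum_type, Fintype.sum_prod_type_right,
    Fintype.sum_prod_type_right, ← Finset.sum_add_distrib, ← Finset.sum_add_distrib]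
  refine Finset.sum_congr rfl fun j _ => ?_
  simp only [rotL, LinearMap.coe_mk, AddHom.coe_mk, Sum.elim_inl, Sum.elim_inr]
  set a := ∑ l, x l * f (Sum.inl (l, j)) with ha
  set g := f (Sum.inr j) with hg
  set t := (Real.cos θ - 1) * a + Real.sin θ * g with ht
  have h1 : ∑ i, (f (Sum.inl (i, j)) + x i * t) ^ 2 =
      ∑ i, f (Sum.inl (i, j)) ^ 2 + 2 * t * a + t ^ 2 := by
    have : ∀ i, (f (Sum.inl (i, j)) + x i * t) ^ 2 =
        f (Sum.inl (i, j)) ^ 2 + 2 * t * (x i * f (Sum.inl (i, j))) + t ^ 2 * x i ^ 2 := by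
      intro i; ring
    simp_rw [this]
    rw [Finset.sum_add_distrib, Finset.sum_add_distrib, ← Finset.mul_sum, ← Finset.mul_sum, hx',
      ← ha, mul_one]
  rw [h1, ht]
  have h2 := Real.sin_sq_add_cos_sq θ
  linear_combination (a ^ 2 + g ^ 2) * h2

theorem mp_rot {x : Fin n → ℝ} (hx : x ⬝ᵥ x = 1) (θ : ℝ) :
    MeasurePreserving (rot x θ) (mu n) (mu n) := by
  have h1 := mp_isometry (rotL x θ) (rotL_sq hx θ)
  have h2 := ((mp_ee n).symm _).comp (h1.comp (mp_ee n))
  exact h2

theorem rot_fst (x : Fin n → ℝ) (θ : ℝ) (w : Om n) (Abar : Matrix (Fin n) (Fin n) ℝ) (σ : ℝ) :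
    Abar + σ • Matrix.of (rot x θ w).1 =
      pth (Abar + σ • Matrix.of w.1) x (σ • (x ᵥ* Matrix.of w.1)) (σ • w.2) θ := by
  ext i j
  simp only [rot, pth, Matrix.add_apply, Matrix.smul_apply, Matrix.of_apply, vecMulVec_apply,
    Pi.add_apply, Pi.smul_apply, smul_eq_mul, Matrix.vecMul, dotProduct]
  ring

theorem rot_rot {x : Fin n → ℝ} (hx : x ⬝ᵥ x = 1) (θ φ : ℝ) (w : Om n) :
    (rot x θ (rot x φ w)).1 = (rot x (θ + φ) w).1 := by
  have hx' : ∑ i, x i * x i = 1 := hx
  funext i j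
  simp only [rot]
  set a := ∑ l, x l * w.1 l j with ha
  have h1 : ∑ l, x l * (w.1 l j + x l * ((Real.cos φ - 1) * a + Real.sin φ * w.2 j)) =
      a + ((Real.cos φ - 1) * a + Real.sin φ * w.2 j) := by
    have : ∀ l, x l * (w.1 l j + x l * ((Real.cos φ - 1) * a + Real.sin φ * w.2 j)) =
        x l * w.1 l j + ((Real.cos φ - 1) * a + Real.sin φ * w.2 j) * (x l * x l) := by
      intro l; ring
    simp_rw [this]
    rw [Finset.sum_add_distrib, ← Finset.mul_sum, hx', ← ha, mul_one]
  rw [h1, Real.cos_add, Real.sin_add]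
  ring

/-- truncated smallest singular value -/
noncomputable def ff (Abar : Matrix (Fin n) (Fin n) ℝ) (σ ε : ℝ) (w : Om n) : ℝ :=
  min (mv (Abar + σ • Matrix.of w.1)) ε

theorem continuous_ff (Abar : Matrix (Fin n) (Fin n) ℝ) (σ ε : ℝ) : Continuous (ff Abar σ ε) := by
  unfold ff
  refine Continuous.min (continuous_mv.comp ?_) continuous_const
  refine continuous_const.add (Continuous.const_smul ?_ σ)
  exact continuous_fst

theorem ff_nonneg (Abar : Matrix (Fin n) (Fin n) ℝ) (σ : ℝ) {ε : ℝ} (hε : 0 < ε) (w : Om n) :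
    0 ≤ ff Abar σ ε w := le_min (mv_nonneg _) hε.le

theorem ff_le (Abar : Matrix (Fin n) (Fin n) ℝ) (σ ε : ℝ) (w : Om n) :
    ff Abar σ ε w ≤ ε := min_le_right _ _

theorem continuous_rot : Continuous fun p : (Fin n → ℝ) × ℝ × Om n => rot p.1 p.2.1 p.2.2 := by
  unfold rot
  fun_prop

theorem integrable_ff_rot (Abar : Matrix (Fin n) (Fin n) ℝ) (σ : ℝ) {ε : ℝ} (hε : 0 < ε)
    (x : Fin n → ℝ) (θ : ℝ) : Integrable (fun w => ff Abar σ ε (rot x θ w)) (mu n) := by
  have hc : Continuous fun w : Om n => ff Abar σ ε (rot x θ w) := by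
    have h2 : Continuous fun w : Om n => ((x, θ, w) : (Fin n → ℝ) × ℝ × Om n) := by fun_prop
    exact (continuous_ff Abar σ ε).comp (continuous_rot.comp h2)
  refine Integrable.of_bound hc.aestronglyMeasurable ε (Filter.Eventually.of_forall fun w => ?_)
  rw [Real.norm_eq_abs, abs_of_nonneg (ff_nonneg Abar σ hε _)]
  exact ff_le _ _ _ _

theorem rot_zero (x : Fin n → ℝ) (w : Om n) : rot x 0 w = w := by
  unfold rot
  simp

/-- **The averaged one step bound.** -/
theorem step_bound (hn : 0 < n) (Abar : Matrix (Fin n) (Fin n) ℝ) (σ : ℝ) {ε : ℝ} (hε : 0 < ε)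
    {x : Fin n → ℝ} (hx : x ⬝ᵥ x = 1) {N : ℕ} (hN : 0 < N) :
    ∫⁻ w, ENNReal.ofReal (max (ff Abar σ ε w - ff Abar σ ε (rot x (2 * Real.pi / N) w)) 0) ∂(mu n) ≤
      ENNReal.ofReal (2 * ε / N) := by
  set δ : ℝ := 2 * Real.pi / N with hδ
  set f := ff Abar σ ε with hf
  have hint : ∀ θ, Integrable (fun w => f (rot x θ w)) (mu n) := fun θ =>
    integrable_ff_rot Abar σ hε x θ
  have hint0 : Integrable f (mu n) := by
    have := hint 0
    simpa only [rot_zero] using this
  have hNr : (0 : ℝ) < N := by exact_mod_cast hN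
  -- the variation along the circle
  have hvar : ∀ w : Om n, ∑ k ∈ Finset.range N,
      |f (rot x δ (rot x (2 * Real.pi * k / N) w)) - f (rot x (2 * Real.pi * k / N) w)| ≤ 4 * ε := by
    intro w
    have h := path_var hn (Abar + σ • Matrix.of w.1) hx (σ • (x ᵥ* Matrix.of w.1)) (σ • w.2) hε N
    refine le_trans (le_of_eq ?_) h
    refine Finset.sum_congr rfl fun k _ => ?_
    have e1 : δ + 2 * Real.pi * k / N = 2 * Real.pi * (k + 1) / N := by
      rw [hδ]; ring
    simp only [hf, ff]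
    rw [rot_rot hx, rot_fst, rot_fst, e1]
  have hD : Integrable (fun w => |f (rot x δ w) - f w|) (mu n) := ((hint δ).sub hint0).abs
  have hDk : ∀ k : ℕ, Integrable (fun w => |f (rot x δ (rot x (2 * Real.pi * k / N) w)) -
      f (rot x (2 * Real.pi * k / N) w)|) (mu n) := by
    intro k
    exact (mp_rot hx (2 * Real.pi * k / N)).integrable_comp_of_integrable hD
  have hsum : (N : ℝ) * ∫ w, |f (rot x δ w) - f w| ∂(mu n) ≤ 4 * ε := by
    have h1 : ∀ k ∈ Finset.range N, ∫ w, |f (rot x δ w) - f w| ∂(mu n) =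
        ∫ w, |f (rot x δ (rot x (2 * Real.pi * k / N) w)) - f (rot x (2 * Real.pi * k / N) w)| ∂(mu n) := by
      intro k _
      have hmp := mp_rot hx (2 * Real.pi * k / N)
      have h2 := integral_map hmp.measurable.aemeasurable (f := fun w => |f (rot x δ w) - f w|)
        (by rw [hmp.map_eq]; exact hD.aestronglyMeasurable)
      rw [hmp.map_eq] at h2
      exact h2
    calc (N : ℝ) * ∫ w, |f (rot x δ w) - f w| ∂(mu n)
        = ∑ k ∈ Finset.range N, ∫ w, |f (rot x δ w) - f w| ∂(mu n) := by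
          rw [Finset.sum_const, Finset.card_range, nsmul_eq_mul]
      _ = ∑ k ∈ Finset.range N, ∫ w, |f (rot x δ (rot x (2 * Real.pi * k / N) w)) -
          f (rot x (2 * Real.pi * k / N) w)| ∂(mu n) := Finset.sum_congr rfl h1
      _ = ∫ w, ∑ k ∈ Finset.range N, |f (rot x δ (rot x (2 * Real.pi * k / N) w)) -
          f (rot x (2 * Real.pi * k / N) w)| ∂(mu n) := by
          rw [integral_finsetSum]
          intro k _; exact hDk k
      _ ≤ ∫ w, 4 * ε ∂(mu n) :=
          integral_mono (integrable_finsetSum _ fun k _ => hDk k) (integrable_const _) hvar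
      _ = 4 * ε := by simp
  have hmean : ∫ w, f (rot x δ w) ∂(mu n) = ∫ w, f w ∂(mu n) := by
    have hmp := mp_rot hx δ
    have h2 := integral_map hmp.measurable.aemeasurable (f := f)
      (by rw [hmp.map_eq]; exact hint0.aestronglyMeasurable)
    rw [hmp.map_eq] at h2
    exact h2.symm
  have hmax : ∀ w, max (f w - f (rot x δ w)) 0 =
      (1 / 2) * (|f (rot x δ w) - f w| + (f w - f (rot x δ w))) := by
    intro w
    rcases le_total (f w) (f (rot x δ w)) with h | h
    · rw [max_eq_right (by linarith), abs_of_nonneg (by linarith)]; ring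
    · rw [max_eq_left (by linarith), abs_of_nonpos (by linarith)]; ring
  have hI : Integrable (fun w => max (f w - f (rot x δ w)) 0) (mu n) := by
    simp_rw [hmax]
    exact (hD.add (hint0.sub (hint δ))).const_mul _
  rw [← ofReal_integral_eq_lintegral_ofReal hI (Filter.Eventually.of_forall fun w => le_max_right _ _)]
  refine ENNReal.ofReal_le_ofReal ?_
  simp_rw [hmax]
  have h3 : ∫ w, (|f (rot x δ w) - f w| + (f w - f (rot x δ w))) ∂(mu n) =
      ∫ w, |f (rot x δ w) - f w| ∂(mu n) + ∫ w, (f w - f (rot x δ w)) ∂(mu n) :=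
    integral_add hD (hint0.sub (hint δ))
  have h4 : ∫ w, (f w - f (rot x δ w)) ∂(mu n) = ∫ w, f w ∂(mu n) - ∫ w, f (rot x δ w) ∂(mu n) :=
    integral_sub hint0 (hint δ)
  rw [integral_const_mul, h3, h4, hmean, sub_self, add_zero, le_div_iff₀ hNr]
  linarith

end Pool.Agent.Q215.SV
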