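import Mathlib

set_option autoImplicit false

/-! A nonzero trigonometric polynomial of degree at most two has at most four zeros on the circle;
a continuous function whose levels are taken at most four times has small variation below `ε`. -/

open MeasureTheory Set

namespace Pool.Agent.Q215.SV

/-- trigonometric polynomials of degree at most two -/
noncomputable def tp (a : Fin 6 → ℝ) (θ : ℝ) : ℝ :=
  a 0 + a 1 * Real.cos θ + a 2 * Real.sin θ + a 3 * Real.cos θ ^ 2 +
    a 4 * (Real.cos θ * Real.sin θ) + a 5 * Real.sin θ ^ 2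

open Polynomial in
/-- the algebraic polynomial attached to it -/
noncomputable def tpC (a : Fin 6 → ℝ) : Polynomial ℂ :=
  C (a 0 : ℂ) * X ^ 2 + C ((a 1 : ℂ) / 2) * (X ^ 3 + X) + C (-(a 2 : ℂ) * Complex.I / 2) * (X ^ 3 - X) +
    C ((a 3 : ℂ) / 4) * (X ^ 4 + 2 * X ^ 2 + 1) + C (-(a 4 : ℂ) * Complex.I / 4) * (X ^ 4 - 1) +
    C (-(a 5 : ℂ) / 4) * (X ^ 4 - 2 * X ^ 2 + 1)

theorem tpC_eval (a : Fin 6 → ℝ) (θ : ℝ) :
    (tpC a).eval (Complex.exp (θ * Complex.I)) = Complex.exp (θ * Complex.I) ^ 2 * (tp a θ : ℂ) := by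
  have hc : Complex.cos (θ : ℂ) = (Complex.exp (θ * Complex.I) + Complex.exp (-(θ * Complex.I))) / 2 := by
    rw [Complex.cos]; ring_nf
  have hs : Complex.sin (θ : ℂ) =
      (Complex.exp (-(θ * Complex.I)) - Complex.exp (θ * Complex.I)) * Complex.I / 2 := by
    rw [Complex.sin]; ring_nf
  have hz : Complex.exp (-(θ * Complex.I)) * Complex.exp (θ * Complex.I) = 1 := by
    rw [← Complex.exp_add]; simp
  unfold tpC tp
  push_cast
  rw [hc, hs]
  simp only [Polynomial.eval_add, Polynomial.eval_mul, Polynomial.eval_C, Polynomial.eval_pow,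
    Polynomial.eval_X, Polynomial.eval_sub, Polynomial.eval_one, Polynomial.eval_ofNat]
  set z := Complex.exp (θ * Complex.I) with hzd
  set w := Complex.exp (-(θ * Complex.I)) with hwd
  have hI : Complex.I ^ 2 = -1 := Complex.I_sq
  have e1 : z ^ 2 * w = z := by
    calc z ^ 2 * w = z * (w * z) := by ring
      _ = z := by rw [hz, mul_one]
  have e2 : z ^ 2 * w ^ 2 = 1 := by
    calc z ^ 2 * w ^ 2 = (w * z) ^ 2 := by ring
      _ = 1 := by rw [hz, one_pow]
  linear_combination (-(a 1 : ℂ) / 2 - (a 2 : ℂ) * Complex.I / 2 - (a 3 : ℂ) / 2 * z + (a 5 : ℂ) / 2 * Complex.I ^ 2 * z) * e1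
    + (-(a 3 : ℂ) / 4 - (a 4 : ℂ) * Complex.I / 4 - (a 5 : ℂ) / 4 * Complex.I ^ 2) * e2
    + (-(a 5 : ℂ) / 4 * z ^ 4 + (a 5 : ℂ) / 2 * z ^ 2 - (a 5 : ℂ) / 4) * hI

theorem natDegree_tpC (a : Fin 6 → ℝ) : (tpC a).natDegree ≤ 4 := by
  unfold tpC
  compute_degree

theorem exp_inj {θ₁ θ₂ : ℝ} (h1 : θ₁ ∈ Ico (0 : ℝ) (2 * Real.pi)) (h2 : θ₂ ∈ Ico (0 : ℝ) (2 * Real.pi))
    (h : Complex.exp (θ₁ * Complex.I) = Complex.exp (θ₂ * Complex.I)) : θ₁ = θ₂ := by
  obtain ⟨n, hn⟩ := Complex.exp_eq_exp_iff_exists_int.1 h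
  have h3 : θ₁ = θ₂ + n * (2 * Real.pi) := by
    have := congrArg Complex.im hn
    simpa using this
  have h4 : n = 0 := by
    have hp := Real.pi_pos
    have a1 : -(2 * Real.pi) < n * (2 * Real.pi) := by linarith [h1.1, h2.2]
    have a2 : n * (2 * Real.pi) < 2 * Real.pi := by linarith [h1.2, h2.1]
    have b1 : (-1 : ℝ) < n := by nlinarith
    have b2 : (n : ℝ) < 1 := by nlinarith
    have c1 : -1 < n := by exact_mod_cast b1
    have c2 : n < 1 := by exact_mod_cast b2
    omega
  rw [h3, h4]; simp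

/-- at most four zeros -/
theorem tp_zeros (a : Fin 6 → ℝ) (θ₀ : ℝ) (h0 : tp a θ₀ ≠ 0) (s : Finset ℝ)
    (hs : ∀ θ ∈ s, θ ∈ Ico (0 : ℝ) (2 * Real.pi)) (hz : ∀ θ ∈ s, tp a θ = 0) : s.card ≤ 4 := by
  classical
  have hp : tpC a ≠ 0 := by
    intro h
    have := tpC_eval a θ₀
    rw [h, Polynomial.eval_zero] at this
    have h2 : (tp a θ₀ : ℂ) = 0 := by
      rcases mul_eq_zero.1 this.symm with h3 | h3
      · exact absurd h3 (pow_ne_zero _ (Complex.exp_ne_zero _))
      · exact h3
    exact h0 (by exact_mod_cast h2)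
  have h1 : (s.image fun θ : ℝ => Complex.exp (θ * Complex.I)) ⊆ (tpC a).roots.toFinset := by
    intro z hz'
    obtain ⟨θ, hθ, rfl⟩ := Finset.mem_image.1 hz'
    rw [Multiset.mem_toFinset, Polynomial.mem_roots hp, Polynomial.IsRoot.def, tpC_eval, hz θ hθ]
    simp
  have h2 : (s.image fun θ : ℝ => Complex.exp (θ * Complex.I)).card = s.card := by
    apply Finset.card_image_of_injOn
    intro x hx y hy hxy
    exact exp_inj (hs x hx) (hs y hy) hxy
  calc s.card = _ := h2.symm
    _ ≤ (tpC a).roots.toFinset.card := Finset.card_le_card h1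
    _ ≤ (tpC a).roots.card := Multiset.toFinset_card_le _
    _ ≤ (tpC a).natDegree := Polynomial.card_roots' _
    _ ≤ 4 := natDegree_tpC a

/-- length of an interval below `ε` -/
theorem trunc_diff (ε a b : ℝ) (hε : 0 < ε) (ha : 0 ≤ a) (hb : 0 ≤ b) :
    |min a ε - min b ε| = ∫ s in Ioo (0 : ℝ) ε, (Ioo (min a b) (max a b)).indicator (fun _ => (1 : ℝ)) s := by
  rw [setIntegral_indicator measurableSet_Ioo]
  rw [Ioo_inter_Ioo, setIntegral_const, smul_eq_mul, mul_one, measureReal_def, Real.volume_Ioo]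
  have h0 : (0 : ℝ) ⊔ min a b = min a b := by
    apply max_eq_right; exact le_min ha hb
  rw [h0]
  rcases le_total a b with h | h
  · rw [min_eq_left h, max_eq_right h]
    rcases le_total b ε with h2 | h2
    · have h3 : a ≤ ε := h.trans h2
      rw [min_eq_left h2, min_eq_left h3, inf_eq_right.2 h2, ENNReal.toReal_ofReal (by linarith),
        abs_sub_comm, abs_of_nonneg (by linarith)]
    · rw [min_eq_right h2, inf_eq_left.2 h2]
      rcases le_total a ε with h3 | h3
      · rw [min_eq_left h3, ENNReal.toReal_ofReal (by linarith), abs_sub_comm,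
          abs_of_nonneg (by linarith)]
      · rw [min_eq_right h3, sub_self, abs_zero, ENNReal.ofReal_of_nonpos (by linarith)]
        simp
  · rw [min_eq_right h, max_eq_left h]
    rcases le_total a ε with h2 | h2
    · have h3 : b ≤ ε := h.trans h2
      rw [min_eq_left h2, min_eq_left h3, inf_eq_right.2 h2, ENNReal.toReal_ofReal (by linarith),
        abs_of_nonneg (by linarith)]
    · rw [min_eq_right h2, inf_eq_left.2 h2]
      rcases le_total b ε with h3 | h3
      · rw [min_eq_left h3, ENNReal.toReal_ofReal (by linarith), abs_of_nonneg (by linarith)]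
      · rw [min_eq_right h3, sub_self, abs_zero, ENNReal.ofReal_of_nonpos (by linarith)]
        simp

/-- Small variation below `ε` along a partition of the circle. -/
theorem variation (h : ℝ → ℝ) (hc : Continuous h) (h0 : ∀ θ, 0 ≤ h θ) (ε : ℝ) (hε : 0 < ε)
    (Z : Set ℝ) (hZ : Z.Finite)
    (hcount : ∀ s, 0 < s → s ∉ Z → ∀ F : Finset ℝ, (∀ θ ∈ F, θ ∈ Ico (0 : ℝ) (2 * Real.pi)) →
      (∀ θ ∈ F, h θ = s) → F.card ≤ 4) (N : ℕ) :
    ∑ k ∈ Finset.range N, |min (h (2 * Real.pi * (k + 1) / N)) ε - min (h (2 * Real.pi * k / N)) ε| ≤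
      4 * ε := by
  classical
  have hpi := Real.pi_pos
  set t : ℕ → ℝ := fun k => 2 * Real.pi * k / N with ht
  have ht1 : ∀ k : ℕ, 2 * Real.pi * ((k : ℝ) + 1) / N = t (k + 1) := by
    intro k; simp [ht]
  set I : ℕ → Set ℝ := fun k => Ioo (min (h (t (k + 1))) (h (t k))) (max (h (t (k + 1))) (h (t k))) with hI
  have h1 : ∑ k ∈ Finset.range N, |min (h (2 * Real.pi * (k + 1) / N)) ε - min (h (2 * Real.pi * k / N)) ε|
      = ∫ s in Ioo (0 : ℝ) ε, ∑ k ∈ Finset.range N, (I k).indicator (fun _ => (1 : ℝ)) s := by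
    rw [integral_finsetSum]
    · refine Finset.sum_congr rfl fun k _ => ?_
      rw [ht1, trunc_diff ε _ _ hε (h0 _) (h0 _)]
    · intro k _
      refine Integrable.indicator ?_ measurableSet_Ioo
      exact integrableOn_const (by simp) (by simp)
  rw [h1]
  have hvol : (volume.real (Ioo (0 : ℝ) ε)) = ε := by
    rw [measureReal_def, Real.volume_Ioo, sub_zero, ENNReal.toReal_ofReal hε.le]
  have h2 : ∫ s in Ioo (0 : ℝ) ε, ∑ k ∈ Finset.range N, (I k).indicator (fun _ => (1 : ℝ)) s ≤
      ∫ s in Ioo (0 : ℝ) ε, (4 : ℝ) := by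
    apply setIntegral_mono_on_ae
    · refine integrable_finsetSum _ fun k _ => ?_
      refine Integrable.indicator ?_ measurableSet_Ioo
      exact integrableOn_const (by simp) (by simp)
    · exact integrableOn_const (by simp) (by simp)
    · exact measurableSet_Ioo
    · have hZ0 : volume Z = 0 := hZ.measure_zero _
      filter_upwards [measure_eq_zero_iff_ae_notMem.1 hZ0] with s hs hs2
      -- the indices whose interval contains `s`
      set K := (Finset.range N).filter fun k => s ∈ I k with hK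
      have hsum : ∑ k ∈ Finset.range N, (I k).indicator (fun _ => (1 : ℝ)) s = K.card := by
        rw [hK, Finset.card_filter]
        push_cast
        refine Finset.sum_congr rfl fun k _ => ?_
        by_cases hk : s ∈ I k <;> simp [hk]
      rw [hsum]
      have hNpos : ∀ k ∈ K, 0 < (N : ℝ) := by
        intro k hk
        have : k < N := Finset.mem_range.1 (Finset.mem_filter.1 hk).1
        exact_mod_cast lt_of_le_of_lt (Nat.zero_le _) this
      have hlt : ∀ k ∈ K, t k < t (k + 1) := by
        intro k hk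
        have hN := hNpos k hk
        simp only [ht]
        rw [div_lt_div_iff_of_pos_right hN]
        push_cast
        nlinarith
      have hex : ∀ k ∈ K, ∃ θ ∈ Ioo (t k) (t (k + 1)), h θ = s := by
        intro k hk
        have hsI : s ∈ I k := (Finset.mem_filter.1 hk).2
        have hlt' := (hlt k hk).le
        rcases le_total (h (t k)) (h (t (k + 1))) with hle | hle
        · have : s ∈ Ioo (h (t k)) (h (t (k + 1))) := by
            simpa [hI, min_eq_right hle, max_eq_left hle] using hsI
          obtain ⟨θ, hθ, hθ2⟩ := intermediate_value_Ioo hlt' hc.continuousOn this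
          exact ⟨θ, hθ, hθ2⟩
        · have : s ∈ Ioo (h (t (k + 1))) (h (t k)) := by
            simpa [hI, min_eq_left hle, max_eq_right hle] using hsI
          obtain ⟨θ, hθ, hθ2⟩ := intermediate_value_Ioo' hlt' hc.continuousOn this
          exact ⟨θ, hθ, hθ2⟩
      choose! f hf hf2 using hex
      have hmono : ∀ k l : ℕ, k ≤ l → t k ≤ t l := by
        intro k l hkl
        simp only [ht]
        have : (k : ℝ) ≤ l := by exact_mod_cast hkl
        gcongr
      have hinj : Set.InjOn f K := by
        intro k hk l hl hkl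
        by_contra hne
        rcases lt_or_gt_of_ne hne with h3 | h3
        · have h4 := hmono (k + 1) l h3
          have h5 := (hf k hk).2
          have h6 := (hf l hl).1
          rw [hkl] at h5
          linarith
        · have h4 := hmono (l + 1) k h3
          have h5 := (hf l hl).2
          have h6 := (hf k hk).1
          rw [hkl] at h6
          linarith
      have hcard : (K.image f).card ≤ 4 := by
        apply hcount s hs2.1 hs
        · intro θ hθ
          obtain ⟨k, hk, rfl⟩ := Finset.mem_image.1 hθ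
          have h5 := hf k hk
          have hkN : k + 1 ≤ N := Finset.mem_range.1 (Finset.mem_filter.1 hk).1
          have h6 := hmono (k + 1) N hkN
          have h7 := hmono 0 k (Nat.zero_le _)
          have hN := hNpos k hk
          have h8 : t N = 2 * Real.pi := by simp only [ht]; field_simp
          have h9 : t 0 = 0 := by simp [ht]
          exact ⟨by linarith [h5.1], by linarith [h5.2]⟩
        · intro θ hθ
          obtain ⟨k, hk, rfl⟩ := Finset.mem_image.1 hθ
          exact hf2 k hk
      rw [Finset.card_image_of_injOn hinj] at hcard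
      exact_mod_cast hcard
  refine h2.trans ?_
  rw [setIntegral_const, hvol, smul_eq_mul, mul_comm]

end Pool.Agent.Q215.SV
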